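import Pool.Agent.Y137.SF.Defs

/-!
# Tate classes on the product of an arbitrary variety with elliptic curves and abelian surfaces:
# definitions
-/

set_option autoImplicit false

namespace Pool.Agent.R937.VS

open Pool.Agent.W495.TA Pool.Agent.Y137.SF Module
open scoped TensorProduct

noncomputable section

variable {p : ℕ} [Fact p.Prime] {ν : PadicAlgCl p ≃+* ℂ} {Ω : Type} [Field Ω] [CharZero Ω]
  {M : Type} [AddCommGroup M] [Module Ω M]

/-- The `n`-th power of an endomorphism. -/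
def pw {W : Type} [AddCommGroup W] [Module Ω W] (A : W →ₗ[Ω] W) (n : ℕ) : W →ₗ[Ω] W := A ^ n

/-- The endomorphism of the space of the alternating maps `W ^ κ → M` given by an endomorphism `A` of `W`
and an endomorphism `B` of `M`. -/
def twist {W : Type} [AddCommGroup W] [Module Ω W] (A : W →ₗ[Ω] W) (B : M →ₗ[Ω] M) (κ : Type) :
    (W [⋀^κ]→ₗ[Ω] M) →ₗ[Ω] (W [⋀^κ]→ₗ[Ω] M) where
  toFun g := B.compAlternatingMap (g.compLinearMap A)
  map_add' g g' := by
    ext v
    exact map_add B _ _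
  map_smul' a g := by
    ext v
    exact map_smul B _ _

/-- The vector `x` belongs to the generalised eigenspace, with exponent `r`, of the endomorphism `A` for
the eigenvalue `q`. -/
def IsGen {W : Type} [AddCommGroup W] [Module Ω W] (A : W →ₗ[Ω] W) (q : Ω) (r : ℕ) (x : W) : Prop :=
  ((A - q • (1 : W →ₗ[Ω] W)) ^ r) x = 0

/-- Let `V` be a variety over the field with `p ^ a` elements and let `M` be its cohomology `H^b(V)`, with
the Frobenius endomorphism `φ`. The part `H^κ(Y) ⊗ H^b(V)` of the cohomology of `Y × V` is the space of the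
alternating maps in the variables `κ` from the Tate module of `Y` to `M`. If `Y.a * s = a * t` then the
field with `p ^ (a t)` elements is a common extension of the ground fields of `Y` and `V`; this is its
Frobenius endomorphism. -/
def frobOn (Y : RedAV p ν) (φ : M →ₗ[Ω] M) (s t : ℕ) (κ : Type) :
    ((TM Ω Y) [⋀^κ]→ₗ[Ω] M) →ₗ[Ω] ((TM Ω Y) [⋀^κ]→ₗ[Ω] M) := twist (pw (F Ω Y) s) (pw φ t) κ

/-- The class `g` on `Y × V` is a Tate class (for `r = 1`), or it belongs to the corresponding generalised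
eigenspace (for arbitrary `r`): for some common extension, with `q = p ^ (a t)` elements, of the ground
fields the Frobenius endomorphism acts on `g` as the multiplication by `q ^ c`. -/
def IsTate (a : ℕ) (φ : M →ₗ[Ω] M) (r : ℕ) (Y : RedAV p ν) {κ : Type}
    (g : (TM Ω Y) [⋀^κ]→ₗ[Ω] M) : Prop :=
  ∃ s t c : ℕ, 0 < s ∧ 0 < t ∧ Y.a * s = a * t ∧
    IsGen (frobOn Y φ s t κ) ((p : Ω) ^ (a * t * c)) r g

/-- The slope of the algebraic number `z`, for the field with `p ^ a` elements: the `p`-adic valuation of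
`z` (by `ν`), normalised by the valuation of `p ^ a`. -/
def slope (p : ℕ) [Fact p.Prime] (ν : PadicAlgCl p ≃+* ℂ) (a : ℕ) (z : ℂ) : ℝ :=
  Real.log ‖ν.symm z‖ / Real.log ‖(p : PadicAlgCl p) ^ a‖

/-- The eigenvalue `α` of the Frobenius endomorphism on `H^b(V)` is the image of a number `x` in a number
field `K`, all conjugates of `x` have the absolute value `p ^ (a b / 2)` (Deligne), and the mean value of
the squares of the numbers `2 s - b`, where `s` runs through the slopes of the conjugates of `x`, is at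
most `μ`. -/
def HasSlopes (p : ℕ) [Fact p.Prime] (ν : PadicAlgCl p ≃+* ℂ) (a b : ℕ) (μ : ℝ) (α : Ω) : Prop :=
  ∃ (K : Type) (_ : Field K) (_ : NumberField K) (ι : K →+* Ω) (x : K), ι x = α ∧
    (∀ ψ : K →+* ℂ, ‖ψ x‖ ^ 2 = (p : ℝ) ^ (a * b)) ∧
    ∑ ψ : K →+* ℂ, (2 * slope p ν a (ψ x) - b) ^ 2 ≤ μ * finrank ℚ K

/-- The smallest system of classes `g` in `H^κ(Y) ⊗ H^b(V)`, for all abelian varieties `Y` over finite
fields, which contains the Tate classes in `H^κ(Y) ⊗ H^b(V)` for the products `Y` of at most `card κ`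
elliptic curves and abelian surfaces, where `card κ ≤ 2 μ + 1`, and which is stable under linear
combinations, products with the algebraic classes on `Y` that belong to `AlgS`, pull-backs along
homomorphisms, and push-forwards along projections. -/
inductive AlgV (a : ℕ) (φ : M →ₗ[Ω] M) (r : ℕ) (μ : ℝ) :
    (Y : RedAV p ν) → (κ : Type) → ((TM Ω Y) [⋀^κ]→ₗ[Ω] M) → Prop
  /-- Tate classes on the product of `V` with few elliptic curves and abelian surfaces -/
  | few {Y : RedAV p ν} {κ : Type} (hκ : Finite κ) (hμ : (Nat.card κ : ℝ) ≤ 2 * μ + 1)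
      (hI : Nat.card Y.X.I ≤ Nat.card κ) (hdim : ∀ i, finrank ℚ (Y.X.factor i).E ≤ 4)
      (g : (TM Ω Y) [⋀^κ]→ₗ[Ω] M) (hg : IsTate a φ r Y g) : AlgV a φ r μ Y κ g
  | zero (Y : RedAV p ν) (κ : Type) : AlgV a φ r μ Y κ 0
  | add {Y : RedAV p ν} {κ : Type} (f g : (TM Ω Y) [⋀^κ]→ₗ[Ω] M) (hf : AlgV a φ r μ Y κ f)
      (hg : AlgV a φ r μ Y κ g) : AlgV a φ r μ Y κ (f + g)
  | smul {Y : RedAV p ν} {κ : Type} (c : Ω) (f : (TM Ω Y) [⋀^κ]→ₗ[Ω] M)
      (hf : AlgV a φ r μ Y κ f) : AlgV a φ r μ Y κ (c • f)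
  /-- renaming of the variables -/
  | reindex {Y : RedAV p ν} {κ κ' : Type} (e : κ ≃ κ') (f : (TM Ω Y) [⋀^κ]→ₗ[Ω] M)
      (hf : AlgV a φ r μ Y κ f) : AlgV a φ r μ Y κ' (f.domDomCongr e)
  /-- cup products (up to a factor) with algebraic classes on `Y` -/
  | cup {Y : RedAV p ν} {κ κ' : Type} [Fintype κ] [DecidableEq κ] [Fintype κ'] [DecidableEq κ']
      (f : (TM Ω Y) [⋀^κ]→ₗ[Ω] Ω) (g : (TM Ω Y) [⋀^κ']→ₗ[Ω] M) (hf : AlgS Ω ∅ Y κ f)
      (hg : AlgV a φ r μ Y κ' g) (h : (TM Ω Y) [⋀^κ ⊕ κ']→ₗ[Ω] M)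
      (hh : ∀ v : κ ⊕ κ' → TM Ω Y, h v = ∑ σ : Equiv.Perm (κ ⊕ κ'),
        (((Equiv.Perm.sign σ : ℤ) : Ω) * f (fun k => v (σ (Sum.inl k)))) •
          g (fun k => v (σ (Sum.inr k)))) :
      AlgV a φ r μ Y (κ ⊕ κ') h
  /-- pull-back along a homomorphism -/
  | pull {Y Z : RedAV p ν} {κ : Type} (h : TM Ω Y →ₗ[Ω] TM Ω Z) (hh : IsFrobHom Ω Y Z h)
      (f : (TM Ω Z) [⋀^κ]→ₗ[Ω] M) (hf : AlgV a φ r μ Z κ f) :
      AlgV a φ r μ Y κ (f.compLinearMap h)
  /-- push-forward (integration over the fibres) along a projection `Z → Y`, where `Z` is isogenous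
  to `Y × Y'` by the inclusions `h` and `h'`: insert a basis of the Tate module of `Y'` -/
  | push {Y Y' Z : RedAV p ν} {κ κ' : Type} (h : TM Ω Y →ₗ[Ω] TM Ω Z) (h' : TM Ω Y' →ₗ[Ω] TM Ω Z)
      (hh : IsFrobHom Ω Y Z h) (hh' : IsFrobHom Ω Y' Z h')
      (hb : Function.Bijective (fun v : TM Ω Y × TM Ω Y' => h v.1 + h' v.2))
      (b : Module.Basis κ' Ω (TM Ω Y')) (f : (TM Ω Z) [⋀^κ ⊕ κ']→ₗ[Ω] M)
      (hf : AlgV a φ r μ Z (κ ⊕ κ') f) (g : (TM Ω Y) [⋀^κ]→ₗ[Ω] M)
      (hg : ∀ v : κ → TM Ω Y, g v = f (Sum.elim (fun k => h (v k)) (fun k => h' (b k)))) :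
      AlgV a φ r μ Y κ g

end

end Pool.Agent.R937.VS
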