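import Pool.Agent.R937.VS.Arith
import Pool.Agent.R937.CS.Final

/-!
# Tate classes on the product of an arbitrary variety with elliptic curves and abelian surfaces:
# the theorem
-/

set_option autoImplicit false
set_option linter.unusedSectionVars false
set_option linter.unusedVariables false

namespace Pool.Agent.R937.VS

open NumberField Pool.Agent.H204R3.CM Pool.Agent.W547.KB Pool.Agent.W547.LD Pool.Agent.W495.TA Module
  Pool.Agent.W495.TB Pool.Agent.W495.TC Pool.Agent.TH117.F5 Pool.Agent.TH117.BL Pool.Agent.Y137.SF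
  Pool.Agent.R937.CS Pool.Agent.W976.TA
open Pool.Agent.Y137.TV (tens tens_apply lam lam_ne_zero mono_F expandM)
open scoped TensorProduct

noncomputable section

section family

variable {p : ℕ} [Fact p.Prime] {ν : PadicAlgCl p ≃+* ℂ} {Ω : Type} [Field Ω] [CharZero Ω]
  {L : Type} [Field L] [NumberField L] [IsCMField L] [IsGalois ℚ L] (j : L →+* ℂ) (jO : L →+* Ω)

/-- Families of half systems with stabilizers of index at most four. -/
theorem algMS_small (W : Set ℕ) {κ : Type} [Finite κ] (heven : Even (Nat.card κ))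
    (S : κ → Set (L ≃ₐ[ℚ] L)) (hS : ∀ k, IsHalf (S k)) (hidx : ∀ k, (stab (S k)).index ≤ 4)
    [Fintype κ] (hsum : ∀ g, ∑ k, tf p ν j (S k) g = 0) :
    AlgMS W p ν j jO κ fun k => tf p ν j (S k) := by
  classical
  have h1 := genD_small (p := p) (ν := ν) W j jO S hS hidx Finset.univ hsum
  rw [← dcnt_eq_sum] at h1
  refine @of_genD _ _ (RR p ν j) (closedS W j jO) ?_ κ _
    (fun k => tf p ν j (S k)) (fun k => ⟨S k, hS k, rfl⟩) heven h1
  rintro f ⟨S, hS, rfl⟩
  exact cancelS W j jO S hS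

theorem sum_wt (X : CMAV) [Fintype (Wt X L)] (g : L ≃ₐ[ℚ] L) :
    ∑ w : Wt X L, tf p ν j (St j w) g = 0 := by
  classical
  have hinv : Function.Involutive fun w : Wt X L => cc L • w := fun w => by
    change cc L • cc L • w = w
    rw [← mul_smul, cc_cc, one_smul]
  have h1 := Equiv.sum_comp (Function.Involutive.toPerm _ hinv)
    (fun w : Wt X L => tf p ν j (St j w) g)
  have h2 : ∀ w : Wt X L, tf p ν j (St j (Function.Involutive.toPerm _ hinv w)) g =
      -tf p ν j (St j w) g := fun w => tf_cc_wt j X w g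
  rw [Finset.sum_congr rfl fun w _ => h2 w, Finset.sum_neg_distrib] at h1
  omega

theorem even_card_wt (X : CMAV) [Fintype (Wt X L)] (j : L →+* ℂ) :
    Even (Fintype.card (Wt X L)) := by
  classical
  haveI : Fact (Nat.Prime 2) := ⟨Nat.prime_two⟩
  let f : Function.End (Wt X L) := fun w => cc L • w
  have hf : f ^ 2 ^ 1 = 1 := by
    rw [pow_one, pow_two]
    funext w
    change cc L • cc L • w = w
    rw [← mul_smul, cc_cc, one_smul]
  have h1 := Equiv.Perm.card_fixedPoints_modEq hf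
  have h2 : Fintype.card f.fixedPoints = 0 := by
    rw [Fintype.card_eq_zero_iff]
    exact ⟨fun ⟨w, hw⟩ => cc_ne_wt j X w hw⟩
  rw [h2] at h1
  exact (Nat.even_iff).2 h1

end family

section realise

variable {p : ℕ} [Fact p.Prime] {ν : PadicAlgCl p ≃+* ℂ}
  {L : Type} [Field L] [NumberField L] [IsCMField L] [IsGalois ℚ L] (j : L →+* ℂ)

/-- The abelian variety given by finitely many half systems. -/
theorem exists_av {Q : Type} [Fintype Q] (y : Q → Set (L ≃ₐ[ℚ] L)) (hy : ∀ q, IsHalf (y q)) :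
    ∃ Z : RedAV p ν, Z.X = prodOf j y hy := by
  classical
  have hex : ∀ q, ∃ (a : ℕ) (π : fld (y q)), 0 < a ∧
      IsFrobenius p ν (pairOf j (y q) (hy q)) a π := fun q =>
    Pool.Agent.W902.TB.honda Pool.Agent.W366.TA.val p ν L j (y q) (hy q)
  choose a π ha hπ using hex
  exact ⟨{ X := prodOf j y hy
           a := ∏ q, a q
           pos := Finset.prod_pos fun q _ => ha q
           π := fun q => (show (pairOf j (y q) (hy q)).E from π q) ^
             (∏ q' ∈ Finset.univ.erase q, a q')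
           frob := fun q => by
             have h1 := isFrob_pow (hπ q) (∏ q' ∈ Finset.univ.erase q, a q')
             have h2 : a q * ∏ q' ∈ Finset.univ.erase q, a q' = ∏ q, a q :=
               Finset.mul_prod_erase _ _ (Finset.mem_univ q)
             rw [h2] at h1
             exact h1 }, rfl⟩

/-- There is an abelian variety with weights belonging to the given half systems. -/
theorem exists_weights {Q : Type} [Fintype Q] (y : Q → Set (L ≃ₐ[ℚ] L)) (hy : ∀ q, IsHalf (y q))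
    (hidx : ∀ q, (stab (y q)).index ≤ 4) :
    ∃ (Z : RedAV p ν) (J : Q → Wt Z.X L), Big Z.X j ∧ Function.Injective J ∧
      (∀ q, St j (J q) = y q) ∧ Nat.card Z.X.I = Nat.card Q ∧
      (∀ i, finrank ℚ (Z.X.factor i).E ≤ 4) := by
  obtain ⟨Z, hZ⟩ := exists_av (p := p) (ν := ν) j y hy
  obtain ⟨X, a, pos, π, frob⟩ := Z
  have hZ' : X = prodOf j y hy := hZ
  subst hZ'
  refine ⟨⟨prodOf j y hy, a, pos, π, frob⟩, fun k => wt j y hy k 1,
    Pool.Agent.W417.TA.big_prodOf j y hy, fun k k' h => wt_fst_eq j y hy h, fun k => ?_, rfl,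
    fun i => ?_⟩
  · have h1 : St j (wt j y hy k 1) = tr 1 (y k) := St_wt j y hy k 1
    rw [tr_one] at h1
    exact h1
  · change finrank ℚ (pairOf j (y i) (hy i)).E ≤ 4
    rw [finrank_pairOf]
    exact hidx i

end realise

section roots

variable {p : ℕ} [Fact p.Prime] {ν : PadicAlgCl p ≃+* ℂ}
  {L : Type} [Field L] [NumberField L] [IsCMField L] [IsGalois ℚ L] (j : L →+* ℂ)

theorem log_prod (Y : RedAV p ν) (hY : Big Y.X j) {κ : Type} [Fintype κ] (I : κ → Wt Y.X L)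
    (σ : L ≃ₐ[ℚ] L) :
    Real.log ‖ν.symm (j (σ (∏ k, (I k).2 (Y.π (I k).1))))‖ =
      Y.a * (Fintype.card κ / 2 + ((∑ k, tf p ν j (St j (I k)) σ : ℤ) : ℝ) /
          (2 * (nD (Dec p ν j) : ℝ))) * Real.log ‖(p : PadicAlgCl p)‖ := by
  have hne : ∀ k, ‖ν.symm (j (σ ((I k).2 (Y.π (I k).1))))‖ ≠ 0 := fun k => by
    rw [norm_ne_zero_iff]
    refine (map_ne_zero ν.symm).2 ((map_ne_zero j).2 ((map_ne_zero σ).2 ?_))
    intro h
    have h1 : j ((I k).2 (Y.π (I k).1)) = 0 := by rw [h, map_zero]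
    have h2 := (Y.frob (I k).1).weil (j.comp (I k).2)
    have h3 : (j.comp (I k).2) (Y.π (I k).1) = 0 := h1
    rw [h3, norm_zero] at h2
    have hp : (0 : ℝ) < p := by exact_mod_cast (Fact.out : p.Prime).pos
    have h4 : (0 : ℝ) < (p : ℝ) ^ Y.a := pow_pos hp _
    rw [← h2] at h4
    norm_num at h4
  rw [map_prod, map_prod, map_prod, norm_prod, Real.log_prod fun k _ => hne k,
    Finset.sum_congr rfl fun k _ => log_lam j Y hY (I k) σ, ← Finset.sum_mul,
    ← Finset.mul_sum, Finset.sum_add_distrib, Finset.sum_const, Finset.card_univ,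
    ← Finset.sum_div]
  push_cast
  rw [nsmul_eq_mul]
  ring

/-- Products of Frobenius eigenvalues with the same slopes agree up to roots of unity and powers of
`p`. -/
theorem match_products (Y Z : RedAV p ν) (hY : Big Y.X j) (hZ : Big Z.X j) {κ κ' : Type} [Fintype κ]
    [Fintype κ'] (I : κ → Wt Y.X L) (J : κ' → Wt Z.X L)
    (h : ∀ σ, ∑ k, tf p ν j (St j (I k)) σ = ∑ k, tf p ν j (St j (J k)) σ) :
    ∃ n : ℕ, 0 < n ∧
      (∏ k, (I k).2 (Y.π (I k).1)) ^ (2 * Z.a * n) * (p : L) ^ (Y.a * Z.a * n * Fintype.card κ') =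
      (∏ k, (J k).2 (Z.π (J k).1)) ^ (2 * Y.a * n) * (p : L) ^ (Y.a * Z.a * n * Fintype.card κ) := by
  classical
  have hp : p.Prime := Fact.out
  have hpL : (p : L) ≠ 0 := Nat.cast_ne_zero.2 hp.ne_zero
  set k := Fintype.card κ with hk
  set m := Fintype.card κ' with hm
  set β : L := ∏ k, (I k).2 (Y.π (I k).1) with hβ
  set β' : L := ∏ k, (J k).2 (Z.π (J k).1) with hβ'
  have hInt : ∀ (X : RedAV p ν) (u : Wt X.X L), IsIntegral ℤ (u.2 (X.π u.1)) := by
    intro X u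
    exact (X.frob u.1).integral.map u.2.toIntAlgHom
  have hp1 : IsIntegral ℤ (p : L) := by
    exact_mod_cast isIntegral_algebraMap (R := ℤ) (A := L) (x := (p : ℤ))
  have hw1 : ∀ (X : RedAV p ν) (κ : Type) [Fintype κ] (I : κ → Wt X.X L) (e : ℕ) (ψ : L →+* ℂ),
      ‖ψ ((∏ k, (I k).2 (X.π (I k).1)) ^ 2 * (p : L) ^ (X.a * (e + 1)))‖ ^ 2 =
        (p : ℝ) ^ (2 * X.a * (Fintype.card κ + e + 1)) := by
    intro X κ _ I e ψ
    have h3 : ‖ψ (∏ k, (I k).2 (X.π (I k).1))‖ ^ 2 = (p : ℝ) ^ (X.a * Fintype.card κ) := by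
      have hw : ∀ k, ‖ψ ((I k).2 (X.π (I k).1))‖ ^ 2 = (p : ℝ) ^ X.a := fun k =>
        (X.frob (I k).1).weil (ψ.comp (I k).2)
      rw [map_prod, norm_prod, ← Finset.prod_pow, Finset.prod_congr rfl fun k _ => hw k,
        Finset.prod_const, Finset.card_univ, ← pow_mul]
    rw [map_mul, norm_mul, map_pow, map_pow, map_natCast, norm_pow, norm_pow,
      Complex.norm_natCast, mul_pow, h3, ← pow_mul, ← pow_mul, ← pow_add]
    congr 1
    ring
  have hlog : ∀ (X : RedAV p ν) (hX : Big X.X j) (κ : Type) [Fintype κ] (I : κ → Wt X.X L) (e : ℕ)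
      (σ : L ≃ₐ[ℚ] L),
      Real.log ‖ν.symm (j (σ ((∏ k, (I k).2 (X.π (I k).1)) ^ 2 * (p : L) ^ (X.a * (e + 1)))))‖ =
        X.a * ((Fintype.card κ + e + 1 : ℕ) + ((∑ k, tf p ν j (St j (I k)) σ : ℤ) : ℝ) /
          (nD (Dec p ν j) : ℝ)) * Real.log ‖(p : PadicAlgCl p)‖ ∧
      0 < ‖ν.symm (j (σ ((∏ k, (I k).2 (X.π (I k).1)) ^ 2 * (p : L) ^ (X.a * (e + 1)))))‖ := by
    intro X hX κ _ I e σ
    have hne : ∀ k, (I k).2 (X.π (I k).1) ≠ 0 := by
      intro k h
      have h2 := (X.frob (I k).1).weil (j.comp (I k).2)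
      have h3 : (j.comp (I k).2) (X.π (I k).1) = 0 := by
        change j ((I k).2 (X.π (I k).1)) = 0
        rw [h, map_zero]
      rw [h3, norm_zero] at h2
      have hp : (0 : ℝ) < p := by exact_mod_cast (Fact.out : p.Prime).pos
      have h4 : (0 : ℝ) < (p : ℝ) ^ X.a := pow_pos hp _
      rw [← h2] at h4
      norm_num at h4
    have hne2 : (∏ k, (I k).2 (X.π (I k).1)) ≠ 0 := Finset.prod_ne_zero_iff.2 fun k _ => hne k
    have hpos : ∀ z : L, z ≠ 0 → 0 < ‖ν.symm (j (σ z))‖ := fun z hz => by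
      rw [norm_pos_iff]
      exact (map_ne_zero ν.symm).2 ((map_ne_zero j).2 ((map_ne_zero σ).2 hz))
    refine ⟨?_, hpos _ (mul_ne_zero (pow_ne_zero _ hne2) (pow_ne_zero _ hpL))⟩
    have h1 := log_prod j X hX I σ
    have h2 : ‖ν.symm (j (σ ((∏ k, (I k).2 (X.π (I k).1)) ^ 2 * (p : L) ^ (X.a * (e + 1)))))‖ =
        ‖ν.symm (j (σ (∏ k, (I k).2 (X.π (I k).1))))‖ ^ 2 *
          ‖(p : PadicAlgCl p)‖ ^ (X.a * (e + 1)) := by
      rw [map_mul, map_mul, map_mul, norm_mul, map_pow, map_pow, map_pow, map_pow, map_pow, map_pow,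
        map_natCast, map_natCast, map_natCast, norm_pow, norm_pow]
    rw [h2, Real.log_mul (pow_ne_zero _ (hpos _ hne2).ne') (pow_ne_zero _ norm_p_pos.ne'),
      Real.log_pow, Real.log_pow, h1]
    push_cast
    ring
  obtain ⟨n, hn, hn2⟩ := Pool.Agent.W64.TA.ru p ν L j (β ^ 2 * (p : L) ^ (Y.a * (m + 1)))
    (β' ^ 2 * (p : L) ^ (Z.a * (k + 1))) (2 * Y.a * (k + m + 1)) (2 * Z.a * (m + k + 1))
    (by have := Y.pos; positivity) (by have := Z.pos; positivity)
    (((IsIntegral.prod _ fun k _ => hInt Y (I k)).pow 2).mul (hp1.pow _))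
    (((IsIntegral.prod _ fun k _ => hInt Z (J k)).pow 2).mul (hp1.pow _))
    (hw1 Y κ I m) (hw1 Z κ' J k) (fun σ => by
      obtain ⟨l1, q1⟩ := hlog Y hY κ I m σ
      obtain ⟨l2, q2⟩ := hlog Z hZ κ' J k σ
      refine Real.log_injOn_pos (Set.mem_Ioi.2 (pow_pos q1 _)) (Set.mem_Ioi.2 (pow_pos q2 _)) ?_
      rw [Real.log_pow, Real.log_pow, l1, l2, h σ]
      push_cast
      ring)
  refine ⟨2 * (k + m + 1) * n, by positivity, ?_⟩
  rw [mul_pow, mul_pow, ← pow_mul, ← pow_mul, ← pow_mul, ← pow_mul] at hn2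
  have hpp : (p : L) ^ (Y.a * Z.a * (2 * (k + m + 1) * n)) ≠ 0 := pow_ne_zero _ hpL
  refine mul_right_cancel₀ hpp ?_
  rw [mul_assoc (β ^ _), mul_assoc (β' ^ _), ← pow_add, ← pow_add]
  have e1 : 2 * (2 * Z.a * (m + k + 1) * n) = 2 * Z.a * (2 * (k + m + 1) * n) := by ring
  have e2 : 2 * (2 * Y.a * (k + m + 1) * n) = 2 * Y.a * (2 * (k + m + 1) * n) := by ring
  have e3 : Y.a * (m + 1) * (2 * Z.a * (m + k + 1) * n) =
      Y.a * Z.a * (2 * (k + m + 1) * n) * m + Y.a * Z.a * (2 * (k + m + 1) * n) := by ring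
  have e4 : Z.a * (k + 1) * (2 * Y.a * (k + m + 1) * n) =
      Y.a * Z.a * (2 * (k + m + 1) * n) * k + Y.a * Z.a * (2 * (k + m + 1) * n) := by ring
  rw [e1, e2, e3, e4] at hn2
  exact hn2

end roots

section main

variable {p : ℕ} [Fact p.Prime] {ν : PadicAlgCl p ≃+* ℂ} {Ω : Type} [Field Ω] [CharZero Ω]
  {L : Type} [Field L] [NumberField L] [IsCMField L] [IsGalois ℚ L] (j : L →+* ℂ) (jO : L →+* Ω)
  {M : Type} [AddCommGroup M] [Module Ω M]

/-- The Tate property of a monomial times a vector on another abelian variety. -/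
theorem tate_transfer {Y Z : RedAV p ν} (hY : Big Y.X j) (hZ : Big Z.X j) {κ κ' : Type} [Fintype κ]
    [Fintype κ'] [DecidableEq κ'] (I : κ → Wt Y.X L) (J : κ' → Wt Z.X L)
    (h : ∀ σ, ∑ k, tf p ν j (St j (I k)) σ = ∑ k, tf p ν j (St j (J k)) σ) {a b s t c r : ℕ}
    (hs : 0 < s) (ha : 0 < a) (ht : 0 < t) (hst : Y.a * s = a * t)
    (hbc : b + Fintype.card κ = 2 * c) (hpar : Even (Fintype.card κ + Fintype.card κ'))
    (φ : M →ₗ[Ω] M) (w : M)
    (hw : ((((∏ k, lam jO (I k)) ^ s) • φ ^ t - ((p : Ω) ^ (a * t * c)) • (1 : M →ₗ[Ω] M)) ^ r) w =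
      0) : IsTate a φ r Z (tens (monoO jO J) w) := by
  classical
  obtain ⟨n, hn, hn2⟩ := match_products j Y Z hY hZ I J h
  set k := Fintype.card κ with hk
  set m := Fintype.card κ' with hm
  have hlamI : ∏ k, lam jO (I k) = jO (∏ k, (I k).2 (Y.π (I k).1)) := by
    rw [map_prod]
    rfl
  have hlamJ : ∏ k, lam jO (J k) = jO (∏ k, (J k).2 (Z.π (J k).1)) := by
    rw [map_prod]
    rfl
  have hpΩ : (p : Ω) ≠ 0 := Nat.cast_ne_zero.2 (Fact.out : p.Prime).ne_zero
  have hb : ∃ c', 2 * c' = m + b := by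
    obtain ⟨x, hx⟩ := hpar
    exact ⟨x + c - k, by omega⟩
  obtain ⟨c', hc'⟩ := hb
  have h1 := congrArg jO hn2
  rw [map_mul, map_mul, map_pow, map_pow, map_pow, map_pow, map_natCast, ← hlamI, ← hlamJ] at h1
  set B : Ω := ∏ k, lam jO (I k) with hB
  set B' : Ω := ∏ k, lam jO (J k) with hB'
  set P : Ω := (p : Ω) ^ (a * t * Z.a * n) with hP
  -- the `s`-th power of the relation
  have h2 : B ^ (s * (2 * Z.a * n)) * P ^ m = B' ^ (2 * Y.a * n * s) * P ^ k := by
    have h3 := congrArg (fun z => z ^ s) h1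
    simp only [mul_pow, ← pow_mul] at h3
    have e1 : Y.a * Z.a * n * m * s = a * t * Z.a * n * m := by
      calc Y.a * Z.a * n * m * s = Y.a * s * (Z.a * n * m) := by ring
        _ = a * t * (Z.a * n * m) := by rw [hst]
        _ = _ := by ring
    have e2 : Y.a * Z.a * n * k * s = a * t * Z.a * n * k := by
      calc Y.a * Z.a * n * k * s = Y.a * s * (Z.a * n * k) := by ring
        _ = a * t * (Z.a * n * k) := by rw [hst]
        _ = _ := by ring
    have e3 : 2 * Z.a * n * s = s * (2 * Z.a * n) := by ring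
    rw [e1, e2, e3] at h3
    rw [hP, ← pow_mul, ← pow_mul]
    exact h3
  have h3 := gen_pow _ _ r (2 * Z.a * n) w hw
  rw [smul_pow_comm, ← pow_mul] at h3
  have h4 := gen_smul _ _ (P ^ m) r w h3
  rw [smul_smul, mul_comm (P ^ m) (B ^ _), h2] at h4
  have h5 : P ^ m * ((p : Ω) ^ (a * t * c)) ^ (2 * Z.a * n) = P ^ k * (P ^ (2 * c')) := by
    have e1 : ((p : Ω) ^ (a * t * c)) ^ (2 * Z.a * n) = P ^ (2 * c) := by
      rw [hP, ← pow_mul, ← pow_mul]
      congr 1
      ring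
    rw [e1, ← pow_add, ← pow_add]
    congr 1
    omega
  rw [h5, mul_comm (B' ^ _) (P ^ k), ← smul_smul] at h4
  have h6 := gen_unsmul _ _ (P ^ k) (pow_ne_zero _ (pow_ne_zero _ hpΩ)) r w h4
  refine ⟨2 * Y.a * n * s, t * (2 * Z.a * n), c', ?_, ?_, ?_, ?_⟩
  · have := Y.pos
    positivity
  · have := Z.pos
    positivity
  · calc Z.a * (2 * Y.a * n * s) = Y.a * s * (2 * Z.a * n) := by ring
      _ = a * t * (2 * Z.a * n) := by rw [hst]
      _ = a * (t * (2 * Z.a * n)) := by ring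
  · have e1 : (p : Ω) ^ (a * (t * (2 * Z.a * n)) * c') = P ^ (2 * c') := by
      rw [hP, ← pow_mul]
      congr 1
      ring
    rw [e1]
    exact isTate_tens jO J w h6

/-- **Monomials.** -/
theorem mono_mem {Y : RedAV p ν} (hY : Big Y.X j) (hkp : BigA (kp p) j)
    (hdim : ∀ i, finrank ℚ (Y.X.factor i).E ≤ 4) {κ : Type} [Fintype κ] [DecidableEq κ]
    (I : κ → Wt Y.X L) {a b s t c r : ℕ} (hs0 : 0 < s) (ha : 0 < a) (ht : 0 < t)
    (hst : Y.a * s = a * t) (φ : M →ₗ[Ω] M) {α : Ω} {μ : ℝ} (hslopes : HasSlopes p ν a b μ α)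
    (hα : (∏ k, lam jO (I k)) ^ s * α ^ t = (p : Ω) ^ (a * t * c)) (w : M)
    (hw : ((((∏ k, lam jO (I k)) ^ s) • φ ^ t - ((p : Ω) ^ (a * t * c)) • (1 : M →ₗ[Ω] M)) ^ r) w =
      0) : AlgV a φ r μ Y κ (tens (monoO jO I) w) := by
  classical
  obtain ⟨hbc, hmom⟩ := sum_sq_tf j jO hY I ha ht hst hα hslopes
  have hhalf : ∀ w : Wt Y.X L, IsHalf (St j w) := fun w => isHalf_St (X := Y.X) j w
  obtain ⟨ι, _, f', hf', hidx', hsum', hbound'⟩ := exists_short (Dec p ν j) (cc L)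
    (fun k => sg (St j (I k))) (fun g => cc_comm j g) cc_cc (fun k => isSign_sg (hhalf _))
    (fun k => by
      rw [rst_sg]
      exact (index_hs_le j (Y.X.factor (I k).1) (hY (I k).1) (I k).2).trans (hdim (I k).1))
    Finset.univ
  have hsum : ∀ g, ∑ q, av (Dec p ν j) (f' q) g = ∑ k, tf p ν j (St j (I k)) g := by
    intro g
    rw [hsum' g]
    exact Finset.sum_congr rfl fun k _ => by rw [tf_eq_av]
  -- the bound
  have hbound : (Fintype.card ι : ℝ) ≤ 2 * μ := by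
    have h1 : (Fintype.card ι : ℤ) * (nD (Dec p ν j) ^ 2 * Fintype.card (L ≃ₐ[ℚ] L)) ≤
        2 * ∑ g, (∑ k, tf p ν j (St j (I k)) g) ^ 2 := by
      refine hbound'.trans (le_of_eq ?_)
      congr 1
    have h2 : (Fintype.card ι : ℝ) * ((nD (Dec p ν j) : ℝ) ^ 2 * Fintype.card (L ≃ₐ[ℚ] L)) ≤
        2 * ∑ g, ((∑ k, tf p ν j (St j (I k)) g : ℤ) : ℝ) ^ 2 := by
      exact_mod_cast h1
    have h3 : (0 : ℝ) < (nD (Dec p ν j) : ℝ) ^ 2 * Fintype.card (L ≃ₐ[ℚ] L) := by
      have h4 : (0 : ℝ) < (nD (Dec p ν j) : ℝ) := by exact_mod_cast nD_pos (Dec p ν j)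
      have h5 : (0 : ℝ) < Fintype.card (L ≃ₐ[ℚ] L) := by exact_mod_cast Fintype.card_pos
      positivity
    refine le_of_mul_le_mul_right ?_ h3
    refine h2.trans ?_
    linarith
  -- the half systems
  obtain ⟨ψ⟩ : Nonempty ((kp p).E →+* ℂ) := inferInstance
  obtain ⟨φ0, -⟩ := hkp ψ
  let Q : Type := ι ⊕ Fin ((Fintype.card ι + Fintype.card κ) % 2)
  let y : Q → Set (L ≃ₐ[ℚ] L) := Sum.elim (fun q => {σ | f' q σ = 1}) fun _ => hs (kp p) j φ0
  have hsgq : ∀ q, sg {σ | f' q σ = 1} = f' q := by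
    intro q
    funext σ
    unfold sg
    rcases (hf' q).sign σ with h | h
    · rw [if_pos (show σ ∈ {σ | f' q σ = 1} from h), h]
    · rw [if_neg (fun h' : σ ∈ {σ | f' q σ = 1} => by
        have h2 : f' q σ = 1 := h'
        rw [h] at h2
        norm_num at h2), h]
  have hy : ∀ q, IsHalf (y q) := by
    rintro (q | q)
    · intro σ
      change f' q σ = 1 ↔ ¬ f' q (cc L * σ) = 1
      have h1 : f' q (cc L * σ) = -f' q σ := (hf' q).odd σ
      rw [h1]
      rcases (hf' q).sign σ with h | h <;> rw [h] <;> norm_num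
    · exact isHalf_hs (kp p) j φ0
  have hyidx : ∀ q, (stab (y q)).index ≤ 4 := by
    rintro (q | q)
    · change (stab {σ | f' q σ = 1}).index ≤ 4
      rw [← rst_sg, hsgq]
      exact hidx' q
    · refine (index_hs_le j (kp p) hkp φ0).trans ?_
      rw [finrank_kp]
      norm_num
  have hytf : ∀ g, ∑ q, tf p ν j (y q) g = ∑ k, tf p ν j (St j (I k)) g := by
    intro g
    rw [Fintype.sum_sum_type, ← hsum g]
    have h1 : ∀ q, tf p ν j (y (Sum.inl q)) g = av (Dec p ν j) (f' q) g := by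
      intro q
      rw [tf_eq_av]
      change av (Dec p ν j) (sg {σ | f' q σ = 1}) g = _
      rw [hsgq]
    have h2 : ∀ q, tf p ν j (y (Sum.inr q)) g = 0 := by
      intro q
      have h3 : tf p ν j (hs (kp p) j φ0) = 0 := by
        rw [tf_hs]
        exact nn_kp (p := p) (ν := ν) (j := j) φ0
      change tf p ν j (hs (kp p) j φ0) g = 0
      rw [h3]
      rfl
    rw [Finset.sum_congr rfl fun q _ => h1 q, Finset.sum_congr rfl fun q _ => h2 q,
      Finset.sum_const_zero, add_zero]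
  have hQ : Fintype.card Q = Fintype.card ι + (Fintype.card ι + Fintype.card κ) % 2 := by
    rw [Fintype.card_sum, Fintype.card_fin]
  have hpar : Even (Fintype.card κ + Fintype.card Q) := by
    rw [hQ, Nat.even_iff]
    omega
  have hμ : (Nat.card Q : ℝ) ≤ 2 * μ + 1 := by
    rw [Nat.card_eq_fintype_card, hQ]
    have h1 : (Fintype.card ι + Fintype.card κ) % 2 ≤ 1 := by omega
    have h2 : (((Fintype.card ι + Fintype.card κ) % 2 : ℕ) : ℝ) ≤ 1 := by exact_mod_cast h1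
    rw [Nat.cast_add]
    linarith
  obtain ⟨Z, J, hZ, hJ, hSt, hcard, hdimZ⟩ := exists_weights (p := p) (ν := ν) j y hy hyidx
  have hsumJ : ∀ σ, ∑ q, tf p ν j (St j (J q)) σ = ∑ k, tf p ν j (St j (I k)) σ := by
    intro σ
    rw [← hytf σ]
    exact Finset.sum_congr rfl fun q _ => by rw [hSt q]
  have hT : IsTate a φ r Z (tens (monoO jO J) w) :=
    tate_transfer j jO hY hZ I J (fun σ => (hsumJ σ).symm) hs0 ha ht hst hbc hpar φ w hw
  have hfew : AlgV a φ r μ Z Q (tens (monoO jO J) w) :=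
    AlgV.few inferInstance hμ hcard.le hdimZ _ hT
  have hV : AlgMV a φ r μ p ν j jO Q (fun q => tf p ν j (St j (J q))) w :=
    @pullV p _ ν Ω _ _ L _ _ _ _ M _ _ a φ r μ j jO Z hZ Q _ _ J hJ w hfew
  -- the remaining weights
  haveI : Finite (Wt Z.X L) := finite_wt j hZ
  letI : Fintype (Wt Z.X L) := Fintype.ofFinite _
  let R : Type := ((Set.range J)ᶜ : Set (Wt Z.X L))
  haveI : Finite R := Subtype.finite
  letI : Fintype R := Fintype.ofFinite _
  let eRQ : R ⊕ Q ≃ Wt Z.X L := (Equiv.sumComm R Q).trans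
    ((Equiv.sumCongr (Equiv.ofInjective J hJ) (Equiv.refl R)).trans
      (Equiv.Set.sumCompl (Set.range J)))
  have heR : ∀ u : R, eRQ (Sum.inl u) = u.1 := fun u => rfl
  have heQ : ∀ q : Q, eRQ (Sum.inr q) = J q := fun q => rfl
  have hsumR : ∀ σ, ∑ u : R, tf p ν j (St j u.1) σ + ∑ k, tf p ν j (St j (I k)) σ = 0 := by
    intro σ
    have h1 := sum_wt (p := p) (ν := ν) j Z.X σ
    rw [← Equiv.sum_comp eRQ, Fintype.sum_sum_type] at h1
    rw [← hsumJ σ]
    exact h1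
  have hevenR : Even (Nat.card (κ ⊕ R)) := by
    have h1 := even_card_wt Z.X j
    rw [← Fintype.card_congr eRQ, Fintype.card_sum] at h1
    rw [Nat.card_eq_fintype_card, Fintype.card_sum]
    rw [Nat.even_iff] at h1 hpar ⊢
    omega
  have hS : AlgMS ∅ p ν j jO (κ ⊕ R) fun x => tf p ν j
      (Sum.elim (fun k => St j (I k)) (fun u : R => St j u.1) x) :=
    @algMS_small p _ ν Ω _ _ L _ _ _ _ j jO ∅ (κ ⊕ R) _ hevenR
    (Sum.elim (fun k => St j (I k)) fun u : R => St j u.1) (by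
      rintro (k | u)
      · exact hhalf (I k)
      · exact isHalf_St (X := Z.X) j u.1) (by
      rintro (k | u)
      · exact (index_hs_le j (Y.X.factor (I k).1) (hY (I k).1) (I k).2).trans (hdim (I k).1)
      · exact (index_hs_le j (Z.X.factor u.1.1) (hZ u.1.1) u.1.2).trans (hdimZ u.1.1)) _ (by
      intro g
      rw [Fintype.sum_sum_type, add_comm]
      exact hsumR g)
  have hcup : AlgMV a φ r μ p ν j jO ((κ ⊕ R) ⊕ Q) (Sum.elim (fun x => tf p ν j
      (Sum.elim (fun k => St j (I k)) (fun u : R => St j u.1) x))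
      (fun q => tf p ν j (St j (J q)))) w :=
    @cupV p _ ν Ω _ _ L _ _ _ _ M _ _ a φ r μ j jO _ _ _ _ _ _ w @hS @hV
  let E : (κ ⊕ R) ⊕ Q ≃ κ ⊕ Wt Z.X L :=
    (Equiv.sumAssoc κ R Q).trans (Equiv.sumCongr (Equiv.refl κ) eRQ)
  have hre : AlgMV a φ r μ p ν j jO (κ ⊕ Wt Z.X L) (Sum.elim (fun k => tf p ν j (St j (I k)))
      fun u => tf p ν j (St j u)) w :=
    @reindexV p _ ν Ω _ _ L _ _ _ _ M _ _ a φ r μ j jO _ _ _ E _ _ w (by
      rintro ((k | u) | q)
      · rfl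
      · rfl
      · rfl) @hcup
  exact @pushV p _ ν Ω _ _ L _ _ _ _ M _ _ a φ r μ j jO Z hZ κ _ _ w @hre _ _ Y hY I fun k => rfl

end main

/-- **The theorem.** -/
theorem main {p : ℕ} [Fact p.Prime] {ν : PadicAlgCl p ≃+* ℂ} {Ω : Type} [Field Ω] [IsAlgClosed Ω]
    [CharZero Ω] (Y : RedAV p ν) (hdim : ∀ i, finrank ℚ (Y.X.factor i).E ≤ 4) {M : Type}
    [AddCommGroup M] [Module Ω M] [FiniteDimensional Ω M] (a b : ℕ) (ha : 0 < a) (φ : M →ₗ[Ω] M)
    (μ : ℝ) (hφ : ∀ α, End.HasEigenvalue φ α → HasSlopes p ν a b μ α) (r k : ℕ)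
    (g : (TM Ω Y) [⋀^Fin k]→ₗ[Ω] M) (hg : IsTate a φ r Y g) : AlgV a φ r μ Y (Fin k) g := by
  classical
  have hne : Nonempty (Y.X.prod (Pool.Agent.W547.KB.single (kp p))).I := ⟨Sum.inr ()⟩
  obtain ⟨L, _, _, _, _, j, hj⟩ := exists_cm (Y.X.prod (Pool.Agent.W547.KB.single (kp p)))
  have hYj : Big Y.X j := fun i ψ => hj (Sum.inl i) ψ
  have hkp : BigA (kp p) j := fun ψ => hj (Sum.inr ()) ψ
  let jO : L →+* Ω := ((IsAlgClosed.lift : L →ₐ[ℚ] Ω) : L →+* Ω)
  obtain ⟨e, h1, h0⟩ := Pool.Agent.W67.TA.basis p ν Ω L j jO Y hYj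
  haveI : Module.Finite ℚ Y.X.H1 := Module.Finite.pi
  haveI : Finite (Wt Y.X L) := Module.Finite.finite_basis e
  letI : Fintype (Wt Y.X L) := Fintype.ofFinite _
  have hne : ((Fintype.card (Equiv.Perm (Fin k)) : ℕ) : Ω) ≠ 0 :=
    Nat.cast_ne_zero.2 Fintype.card_ne_zero
  obtain ⟨s, t, c, hs, ht, hst, hg⟩ := hg
  have h2 := expandM jO Y e h1 h0 (Fin k) g
  have h3 : AlgV a φ r μ Y (Fin k) (((Fintype.card (Equiv.Perm (Fin k)) : ℕ) : Ω) • g) := by
    rw [h2]
    refine algV_sum _ _ fun I _ => ?_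
    by_cases hI : g (fun k => e (I k)) = 0
    · rw [hI]
      have h4 : tens (monoO jO I) (0 : M) = 0 := by
        ext v
        rw [tens_apply, smul_zero]
        rfl
      rw [h4]
      exact AlgV.zero _ _
    · have hw := component jO e h1 h0 hg I
      obtain ⟨α, hα, hαq⟩ := exists_eigenvalue φ hI hw
      exact mono_mem j jO hYj hkp hdim I hs ha ht hst φ (hφ α hα) hαq _ hw
  have h4 := AlgV.smul (((Fintype.card (Equiv.Perm (Fin k)) : ℕ) : Ω))⁻¹ _ h3
  rwa [smul_smul, inv_mul_cancel₀ hne, one_smul] at h4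

end

end Pool.Agent.R937.VS
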