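import Mathlib

/-!
# Mean values over the conjugates of an algebraic number
-/

set_option autoImplicit false

namespace Pool.Agent.R937.VS

open Module IntermediateField

noncomputable section

/-- The sum over the embeddings of a field in terms of the embeddings of a subfield. -/
theorem sum_embeddings {K L F E : Type} [Field K] [Field L] [Field F] [Field E] [Algebra K L]
    [Algebra K F] [Algebra K E] [Algebra L F] [IsScalarTower K L F] [IsAlgClosed E]
    [FiniteDimensional K F] [Algebra.IsSeparable K F] (pb : PowerBasis K L) (h : E → ℝ) :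
    ∑ σ : F →ₐ[K] E, h (σ (algebraMap L F pb.gen)) =
      finrank L F •
        (@Finset.univ _ (PowerBasis.AlgHom.fintype pb)).sum fun σ : L →ₐ[K] E => h (σ pb.gen) := by
  have : FiniteDimensional L F := FiniteDimensional.right K L F
  have : Algebra.IsSeparable L F := Algebra.isSeparable_tower_top_of_isSeparable K L F
  let : Fintype (L →ₐ[K] E) := PowerBasis.AlgHom.fintype pb
  rw [Fintype.sum_equiv algHomEquivSigma (fun σ : F →ₐ[K] E => _) fun σ => h (σ.1 pb.gen),
    ← Finset.univ_sigma_univ, Finset.sum_sigma, ← Finset.sum_nsmul]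
  · refine Finset.sum_congr rfl fun σ _ => ?_
    let : Algebra L E := σ.toRingHom.toAlgebra
    simp_rw [Finset.sum_const, Finset.card_univ, ← AlgHom.card L F E]
  · intro σ
    simp only [algHomEquivSigma, Equiv.coe_fn_mk, AlgHom.domRestrict, AlgHom.comp_apply,
      IsScalarTower.coe_toAlgHom']

/-- The sum over the roots of a polynomial, without multiplicities. -/
def rootSum (P : Polynomial ℚ) (h : ℂ → ℝ) : ℝ := ∑ z ∈ (P.aroots ℂ).toFinset, h z

theorem sum_eq_rootSum {K : Type} [Field K] [NumberField K] (x : K) (h : ℂ → ℝ) :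
    ∑ ψ : K →+* ℂ, h (ψ x) = finrank ℚ⟮x⟯ K * rootSum (minpoly ℚ x) h := by
  classical
  have hx : IsIntegral ℚ x := Algebra.IsIntegral.isIntegral x
  let pb := adjoin.powerBasis hx
  have h1 := sum_embeddings (K := ℚ) (L := ℚ⟮x⟯) (F := K) (E := ℂ) pb h
  have hgen : algebraMap ℚ⟮x⟯ K pb.gen = x := by
    rw [adjoin.powerBasis_gen]
    rfl
  rw [hgen] at h1
  have h2 : ∑ ψ : K →+* ℂ, h (ψ x) = ∑ σ : K →ₐ[ℚ] ℂ, h (σ x) :=
    Fintype.sum_equiv (RingHom.equivRatAlgHom K ℂ) _ _ fun ψ => rfl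
  rw [h2, h1, nsmul_eq_mul]
  congr 1
  let _ : Fintype (ℚ⟮x⟯ →ₐ[ℚ] ℂ) := PowerBasis.AlgHom.fintype pb
  unfold rootSum
  refine Finset.sum_bij (fun σ _ => (algHomAdjoinIntegralEquiv ℚ hx σ : ℂ)) ?_ ?_ ?_ ?_
  · intro σ _
    rw [Multiset.mem_toFinset]
    exact (algHomAdjoinIntegralEquiv ℚ hx σ).2
  · intro σ _ τ _ hστ
    exact (algHomAdjoinIntegralEquiv ℚ hx).injective (Subtype.ext hστ)
  · intro z hz
    rw [Multiset.mem_toFinset] at hz
    exact ⟨(algHomAdjoinIntegralEquiv ℚ hx).symm ⟨z, hz⟩,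
      @Finset.mem_univ _ (PowerBasis.AlgHom.fintype pb) _, by rw [Equiv.apply_symm_apply]⟩
  · intro σ _
    congr 1

/-- The mean values over the embeddings of two number fields agree. -/
theorem mean_eq {K K' : Type} [Field K] [NumberField K] [Field K'] [NumberField K'] (x : K) (x' : K')
    (hxx : minpoly ℚ x = minpoly ℚ x') (h : ℂ → ℝ) :
    (∑ ψ : K →+* ℂ, h (ψ x)) * finrank ℚ K' = (∑ ψ : K' →+* ℂ, h (ψ x')) * finrank ℚ K := by
  rw [sum_eq_rootSum, sum_eq_rootSum, hxx]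
  have h1 : finrank ℚ ℚ⟮x⟯ * finrank ℚ⟮x⟯ K = finrank ℚ K := finrank_mul_finrank ℚ ℚ⟮x⟯ K
  have h2 : finrank ℚ ℚ⟮x'⟯ * finrank ℚ⟮x'⟯ K' = finrank ℚ K' := finrank_mul_finrank ℚ ℚ⟮x'⟯ K'
  have h3 : finrank ℚ ℚ⟮x⟯ = finrank ℚ ℚ⟮x'⟯ := by
    rw [adjoin.finrank (Algebra.IsIntegral.isIntegral x),
      adjoin.finrank (Algebra.IsIntegral.isIntegral x'), hxx]
  rw [← h1, ← h2, h3]
  push_cast
  ring

/-- The embeddings of a Galois extension. -/
theorem sum_gal {L : Type} [Field L] [NumberField L] [IsGalois ℚ L] (j : L →+* ℂ) (x : L)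
    (h : ℂ → ℝ) : ∑ ψ : L →+* ℂ, h (ψ x) = ∑ σ : L ≃ₐ[ℚ] L, h (j (σ x)) := by
  classical
  have hinj : Function.Injective fun σ : L ≃ₐ[ℚ] L => j.comp (σ : L →+* L) := by
    intro σ τ hστ
    ext y
    have := RingHom.congr_fun hστ y
    exact j.injective this
  have hbij : Function.Bijective fun σ : L ≃ₐ[ℚ] L => j.comp (σ : L →+* L) := by
    rw [Fintype.bijective_iff_injective_and_card]
    refine ⟨hinj, ?_⟩
    rw [NumberField.Embeddings.card L ℂ, ← Nat.card_eq_fintype_card, IsGalois.card_aut_eq_finrank]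
  exact (Function.Bijective.sum_comp hbij fun ψ : L →+* ℂ => h (ψ x)).symm

end

end Pool.Agent.R937.VS
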