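import Pool.Agent.R937.VS.Grp

/-!
# Sums of averaged sign functions: the bound for the length
-/

set_option autoImplicit false
set_option linter.unusedSectionVars false
set_option linter.unusedVariables false

namespace Pool.Agent.R937.VS

open Pool.Agent.W495.TA Pool.Agent.W495.TC Pool.Agent.TH117.BL Pool.Agent.Y137.SF
  Pool.Agent.R937.CS

noncomputable section

variable {G : Type} [Group G] [Fintype G] (D : Subgroup G) (c : G)
  {κ : Type} [Fintype κ] (f : κ → G → ℤ) (hcomm : ∀ g, c * g = g * c) (hc2 : c * c = 1)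

include hcomm hc2

variable (hf : ∀ k, IsSign c (f k)) (hidx : ∀ k, (rst (f k)).index ≤ 4)

include hf hidx

/-- The index of `VV` is at most four. -/
theorem index_VV_le (k0 : κ) : (VV D c (f k0)).index ≤ 4 := by
  have hcN : c ∉ (rst (f k0)).normalCore := fun h =>
    c_notMem c (hf k0) (Subgroup.normalCore_le _ h)
  have hN8 := index_core_le c hcomm hc2 (f k0) (hf k0) (hidx k0)
  have hNV : (rst (f k0)).normalCore ≤ VV D c (f k0) := le_sup_right
  have h5 := Subgroup.relIndex_mul_index hNV
  have hcV : c ∈ VV D c (f k0) := by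
    have h1 : Subgroup.zpowers c ≤ VV D c (f k0) := le_sup_right.trans le_sup_left
    exact h1 (Subgroup.mem_zpowers c)
  have h1 : (rst (f k0)).normalCore.relIndex (VV D c (f k0)) ≠ 1 := by
    rw [ne_eq, Subgroup.relIndex_eq_one]
    exact fun h => hcN (h hcV)
  have h2 : (rst (f k0)).normalCore.relIndex (VV D c (f k0)) ≠ 0 := fun h => by
    rw [h, zero_mul] at h5
    exact Subgroup.index_ne_zero_of_finite h5.symm
  have h3 : 2 ≤ (rst (f k0)).normalCore.relIndex (VV D c (f k0)) := by omega
  have h4 : 2 * (VV D c (f k0)).index ≤ 8 := by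
    calc 2 * (VV D c (f k0)).index ≤
        (rst (f k0)).normalCore.relIndex (VV D c (f k0)) * (VV D c (f k0)).index :=
          Nat.mul_le_mul_right _ h3
      _ ≤ 8 := by rw [h5]; exact hN8
  omega

/-- The partial sum of a class. -/
theorem class_case (s : Finset κ) (k0 : κ) (hk0 : k0 ∈ s) (τ : G → ℤ)
    (hτ : ∀ g, yy D f (rst (f k0)).normalCore s g = nD D * τ g) :
    (∀ g, τ g = 0) ∨
      ((VV D c (f k0)).index ≤ 2 ∧ ∃ T : G → ℤ, IsSign c T ∧
        (∀ g, ∀ n ∈ (rst (f k0)).normalCore, T (g * n) = T g) ∧ ∀ g, av D T g = 0) ∨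
      ((VV D c (f k0)).index ≤ 4 ∧ (∀ g g', (2 : ℤ) ∣ τ g - τ g') ∧ ∃ e : G → ℤ, IsSign c e ∧
        (∀ g, ∀ d ∈ D, e (d * g) = e g) ∧
        ∀ g, ∀ n ∈ (rst (f k0)).normalCore, e (g * n) = e g) := by
  classical
  let N := (rst (f k0)).normalCore
  have hNn : N.Normal := Subgroup.normalCore_normal _
  have hpos := nD_pos D
  have hcancel : ∀ x y : ℤ, nD D * x = nD D * y → x = y := fun x y h =>
    mul_left_cancel₀ hpos.ne' h
  by_cases hzero : ∀ g, τ g = 0
  · exact Or.inl hzero
  right
  push Not at hzero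
  obtain ⟨g0, hg0⟩ := hzero
  have hτl : ∀ g, ∀ d ∈ D, τ (d * g) = τ g := fun g d hd =>
    hcancel _ _ (by rw [← hτ, ← hτ]; exact yy_left D f N s g hd)
  have hτr : ∀ g, ∀ n ∈ N, τ (g * n) = τ g := fun g n hn =>
    hcancel _ _ (by rw [← hτ, ← hτ]; exact yy_right D f N s g hn)
  have hτc : ∀ g, τ (c * g) = -τ g := fun g =>
    hcancel _ _ (by rw [mul_neg, ← hτ, ← hτ]; exact yy_c D c f hcomm hf N s g)
  have hτn : ∀ g, ∀ n ∈ N, τ (n * g) = τ g := fun g n hn => by
    have h1 : n * g = g * (g⁻¹ * n * g) := by group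
    have h2 : g⁻¹ * n * g ∈ N := by
      have := hNn.conj_mem n hn g⁻¹
      rwa [inv_inv] at this
    rw [h1, hτr g _ h2]
  by_cases hz : ∃ k ∈ s, N ≤ rst (f k) ∧ ∃ g, av D (f k) g = 0
  · left
    obtain ⟨k, -, hkN, g2, hg2⟩ := hz
    let π : G →* G ⧸ N := QuotientGroup.mk' N
    let _ : Fintype (G ⧸ N) := Fintype.ofFinite _
    have hcD : ∀ d ∈ D, d⁻¹ * c ∉ N := by
      intro d hd h1
      have h2 := hτn g0 _ h1
      rw [mul_assoc, hτl _ _ (D.inv_mem hd), hτc] at h2
      omega
    have hcD' : π c ∉ D.map π := by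
      rintro ⟨d, hd, hdc⟩
      exact hcD d hd (QuotientGroup.eq.1 hdc)
    have hc1 : π c ≠ 1 := fun h => hcD' (by rw [h]; exact (D.map π).one_mem)
    obtain ⟨fk, hfk⟩ := descend N (f k) hkN
    have heven : Even (Nat.card (D.map π)) := by
      refine even_of_zero π D (π c) fk (isSign_descend hfk (hf k)) g2 ?_
      rw [← hg2]
      congr 1
      funext x
      exact hfk x
    obtain ⟨T, hT, hT0⟩ := exists_zero π D (π c) (fun _ _ => True) Set.univ
      (fun _ _ => Set.mem_univ _) (fun _ _ _ => trivial) (comm_quot c hcomm N) (sq_quot c hc2 N)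
      hc1 hcD' heven
    refine ⟨?_, fun g => T (π g), ⟨fun g => hT.sign _, fun g => ?_⟩, fun g n hn => ?_, fun g => ?_⟩
    · -- the index
      obtain ⟨d, hd, hdN⟩ : ∃ d ∈ D, d ∉ N := by
        by_contra hcon
        push Not at hcon
        have h1 : D.map π = ⊥ := by
          rw [eq_bot_iff]
          rintro _ ⟨d, hd, rfl⟩
          exact (QuotientGroup.eq_one_iff d).2 (hcon d hd)
        rw [h1, Subgroup.card_bot] at heven
        exact absurd heven (by decide)
      have hcN : c ∉ N := fun h => hcD 1 D.one_mem (by rwa [inv_one, one_mul])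
      have hDV : D ≤ VV D c (f k0) := le_sup_left.trans le_sup_left
      have hcV : c ∈ VV D c (f k0) := by
        have h1 : Subgroup.zpowers c ≤ VV D c (f k0) := le_sup_right.trans le_sup_left
        exact h1 (Subgroup.mem_zpowers c)
      have hdcN : ∀ x ∈ D, x * c ∉ N := by
        intro x hx h
        refine hcD x⁻¹ (D.inv_mem hx) ?_
        rwa [inv_inv]
      have h4 : 4 ≤ N.relIndex (VV D c (f k0)) := by
        refine four_le_relIndex _ _ ![1, d, c, c * d] ?_ ?_
        · intro i
          fin_cases i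
          · exact (VV D c (f k0)).one_mem
          · exact hDV hd
          · exact hcV
          · exact (VV D c (f k0)).mul_mem hcV (hDV hd)
        · intro i k hik
          fin_cases i <;> fin_cases k <;> first
            | exact absurd hik (by decide)
            | skip
          · change (1 : G)⁻¹ * d ∉ _
            rwa [inv_one, one_mul]
          · change (1 : G)⁻¹ * c ∉ _
            rwa [inv_one, one_mul]
          · change (1 : G)⁻¹ * (c * d) ∉ _
            rw [inv_one, one_mul, hcomm]
            exact hdcN d hd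
          · change d⁻¹ * c ∉ _
            exact hdcN _ (D.inv_mem hd)
          · change d⁻¹ * (c * d) ∉ _
            rwa [hcomm, inv_mul_cancel_left]
          · change c⁻¹ * (c * d) ∉ _
            rwa [inv_mul_cancel_left]
      have hN8 := index_core_le c hcomm hc2 (f k0) (hf k0) (hidx k0)
      have hNV : N ≤ VV D c (f k0) := le_sup_right
      have h5 := Subgroup.relIndex_mul_index hNV
      by_contra h
      push Not at h
      have h7 : 4 * 3 ≤ N.relIndex (VV D c (f k0)) * (VV D c (f k0)).index :=
        Nat.mul_le_mul h4 h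
      have h8 : N.index ≤ 8 := hN8
      omega
    · change T (π (c * g)) = -T (π g)
      rw [map_mul]
      exact hT.odd _
    · have h2 : π n = 1 := (QuotientGroup.eq_one_iff n).2 hn
      change T (π (g * n)) = T (π g)
      rw [map_mul, h2, mul_one]
    · exact congrFun hT0 g
  · right
    push Not at hz
    have hval : ∀ k ∈ s, N ≤ rst (f k) → ∀ g, av D (f k) g = nD D ∨ av D (f k) g = -nD D := by
      intro k hk hkN g
      rcases av_values D c hcomm (hf k) (hidx k) g with h | h
      · exact absurd h (hz k hk hkN g)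
      · exact h
    refine ⟨index_VV_le D c f hcomm hc2 hf hidx k0, fun g g' => ?_, ?_⟩
    · have h2 : 2 * nD D ∣ nD D * τ g - nD D * τ g' := by
        rw [← hτ, ← hτ]
        unfold yy
        rw [← Finset.sum_sub_distrib]
        refine Finset.dvd_sum fun k hk => ?_
        have hk' := Finset.mem_filter.1 hk
        rcases hval k hk'.1 hk'.2 g with a | a <;> rcases hval k hk'.1 hk'.2 g' with b | b <;>
          rw [a, b]
        · rw [sub_self]
          exact dvd_zero _
        · exact ⟨1, by ring⟩
        · exact ⟨-1, by ring⟩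
        · rw [sub_self]
          exact dvd_zero _
      rw [← mul_sub, mul_comm (2 : ℤ)] at h2
      exact Int.dvd_of_mul_dvd_mul_left hpos.ne' h2
    · have hk0v : ∀ g, av D (f k0) g = nD D ∨ av D (f k0) g = -nD D :=
        hval k0 hk0 (Subgroup.normalCore_le _)
      refine ⟨fun g => if av D (f k0) g = nD D then 1 else -1, ⟨fun g => ?_, fun g => ?_⟩,
        fun g d hd => ?_, fun g n hn => ?_⟩
      · change (if av D (f k0) g = nD D then (1 : ℤ) else -1) = 1 ∨
          (if av D (f k0) g = nD D then (1 : ℤ) else -1) = -1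
        split_ifs
        · exact Or.inl rfl
        · exact Or.inr rfl
      · change (if av D (f k0) (c * g) = nD D then (1 : ℤ) else -1) =
          -(if av D (f k0) g = nD D then 1 else -1)
        rw [av_c D c hcomm (hf k0)]
        rcases hk0v g with h | h
        · rw [h, if_pos rfl, if_neg (by omega)]
        · rw [h, neg_neg, if_pos rfl, if_neg (by omega), neg_neg]
      · change (if av D (f k0) (d * g) = nD D then (1 : ℤ) else -1) =
          (if av D (f k0) g = nD D then 1 else -1)
        rw [av_left D (f k0) hd]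
      · change (if av D (f k0) (g * n) = nD D then (1 : ℤ) else -1) =
          (if av D (f k0) g = nD D then 1 else -1)
        rw [av_right D (Subgroup.normalCore_le _ hn)]

open Classical in
/-- Orthogonality. -/
theorem sum_sq_split (N : Subgroup G) [N.Normal] (s : Finset κ) :
    ∑ g, (yy D f N s g + ∑ k ∈ s with ¬ N ≤ rst (f k), av D (f k) g) ^ 2 =
      ∑ g, (yy D f N s g) ^ 2 +
        ∑ g, (∑ k ∈ s with ¬ N ≤ rst (f k), av D (f k) g) ^ 2 := by
  classical
  set s1 : Finset κ := s.filter fun k => ¬ N ≤ rst (f k) with hs1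
  set t : G → ℤ := yy D f N s with ht
  set T1 : G → ℤ := fun g => ∑ k ∈ s1, av D (f k) g with hT1
  have hposN := nD_pos N
  have hyy : ∀ g, yy D f N s1 g = 0 := by
    intro g
    unfold yy
    rw [Finset.sum_eq_zero]
    intro k hk
    have h1 := Finset.mem_filter.1 hk
    exact absurd h1.2 (Finset.mem_filter.1 h1.1).2
  have h0 : nD N * ∑ g, t g * T1 g = 0 := by
    have h1 : ∀ n ∈ N, ∑ g, t g * T1 (g * n) = ∑ g, t g * T1 g := by
      intro n hn
      rw [← Equiv.sum_comp (Equiv.mulRight n) (fun g => t g * T1 g)]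
      refine Finset.sum_congr rfl fun g _ => ?_
      rw [Equiv.coe_mulRight]
      change t g * T1 (g * n) = t (g * n) * T1 (g * n)
      rw [ht, yy_right D f N s g hn]
    calc nD N * ∑ g, t g * T1 g
        = ∑ n : G, (if n ∈ N then ∑ g, t g * T1 (g * n) else 0) := by
          unfold nD
          rw [Finset.sum_mul]
          refine Finset.sum_congr rfl fun n _ => ?_
          by_cases hn : n ∈ N
          · rw [if_pos hn, if_pos hn, one_mul, h1 n hn]
          · rw [if_neg hn, if_neg hn, zero_mul]
      _ = ∑ g, t g * ∑ n : G, (if n ∈ N then T1 (g * n) else 0) := by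
          simp only [Finset.mul_sum]
          rw [Finset.sum_comm]
          refine Finset.sum_congr rfl fun n _ => ?_
          by_cases hn : n ∈ N
          · simp only [if_pos hn]
          · simp only [if_neg hn, mul_zero, Finset.sum_const_zero]
      _ = ∑ g, t g * (nD N * yy D f N s1 g) := by
          refine Finset.sum_congr rfl fun g _ => ?_
          rw [← sum_coset D c f hcomm hc2 hf hidx N s1 g]
      _ = 0 := by
          refine Finset.sum_eq_zero fun g _ => ?_
          rw [hyy, mul_zero, mul_zero]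
  have h1 : ∑ g, t g * T1 g = 0 := (mul_eq_zero.1 h0).resolve_left hposN.ne'
  have h2 : ∀ g, (t g + T1 g) ^ 2 = (t g) ^ 2 + (T1 g) ^ 2 + 2 * (t g * T1 g) := fun g => by ring
  change ∑ g, (t g + T1 g) ^ 2 = ∑ g, (t g) ^ 2 + ∑ g, (T1 g) ^ 2
  rw [Finset.sum_congr rfl fun g _ => h2 g, Finset.sum_add_distrib, Finset.sum_add_distrib,
    ← Finset.mul_sum, h1, mul_zero, add_zero]

/-- **Short representations.** -/
theorem exists_short (s : Finset κ) : ∃ (ι : Type) (_ : Fintype ι) (f' : ι → G → ℤ),
    (∀ q, IsSign c (f' q)) ∧ (∀ q, (rst (f' q)).index ≤ 4) ∧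
    (∀ g, ∑ q, av D (f' q) g = ∑ k ∈ s, av D (f k) g) ∧
    (Fintype.card ι : ℤ) * (nD D ^ 2 * Fintype.card G) ≤
      2 * ∑ g, (∑ k ∈ s, av D (f k) g) ^ 2 := by
  classical
  induction s using Finset.strongInduction with
  | H s ih =>
    rcases s.eq_empty_or_nonempty with rfl | ⟨k0, hk0⟩
    · refine ⟨Empty, inferInstance, fun q => q.elim, fun q => q.elim, fun q => q.elim, fun g => ?_,
        ?_⟩
      · rw [Finset.sum_empty, Finset.univ_eq_empty, Finset.sum_empty]
      · simp
    · let N : Subgroup G := (rst (f k0)).normalCore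
      have hNn : N.Normal := Subgroup.normalCore_normal _
      have hsub : (s.filter fun k => ¬ N ≤ rst (f k)) ⊂ s := by
        refine Finset.ssubset_iff_subset_ne.2 ⟨Finset.filter_subset _ _, fun h => ?_⟩
        have h1 : k0 ∈ s.filter fun k => ¬ N ≤ rst (f k) := by
          rw [h]
          exact hk0
        exact (Finset.mem_filter.1 h1).2 (Subgroup.normalCore_le _)
      obtain ⟨ι1, i1, f1, hs1, hx1, hsum1, hb1⟩ := ih _ hsub
      have hpos := nD_pos D
      choose τ hτ using fun g => yy_dvd D c f hcomm hf hidx N s g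
      have hcancel : ∀ x y : ℤ, nD D * x = nD D * y → x = y := fun x y h =>
        mul_left_cancel₀ hpos.ne' h
      obtain ⟨m, f2, hs2, hx2, hsum2, hb2⟩ := class_short D c hcomm hc2 (f k0) (hf k0) (hidx k0) τ
        (fun g => hcancel _ _ (by rw [mul_neg, ← hτ, ← hτ]; exact yy_c D c f hcomm hf N s g))
        (fun g d hd => hcancel _ _ (by rw [← hτ, ← hτ]; exact yy_left D f N s g hd))
        (fun g n hn => hcancel _ _ (by rw [← hτ, ← hτ]; exact yy_right D f N s g hn))
        (class_case D c f hcomm hc2 hf hidx s k0 hk0 τ hτ)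
      have hsplit : ∀ g, ∑ k ∈ s, av D (f k) g =
          yy D f N s g + ∑ k ∈ s with ¬ N ≤ rst (f k), av D (f k) g := by
        intro g
        unfold yy
        rw [← Finset.sum_filter_add_sum_filter_not s fun k => N ≤ rst (f k)]
      refine ⟨ι1 ⊕ Fin m, inferInstance, Sum.elim f1 f2, ?_, ?_, fun g => ?_, ?_⟩
      · rintro (q | q)
        · exact hs1 q
        · exact hs2 q
      · rintro (q | q)
        · exact hx1 q
        · exact hx2 q
      · rw [Fintype.sum_sum_type]
        simp only [Sum.elim_inl, Sum.elim_inr]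
        rw [hsum1, hsum2, hsplit, ← hτ, add_comm]
      · rw [Finset.sum_congr rfl fun g _ => by rw [hsplit g],
          sum_sq_split D c f hcomm hc2 hf hidx N s]
        have h3 : ∑ g, (yy D f N s g) ^ 2 = nD D ^ 2 * ∑ g, (τ g) ^ 2 := by
          rw [Finset.mul_sum]
          exact Finset.sum_congr rfl fun g _ => by rw [hτ]; ring
        rw [h3, Fintype.card_sum, Fintype.card_fin]
        have h4 : (m : ℤ) * (nD D ^ 2 * Fintype.card G) ≤ nD D ^ 2 * (2 * ∑ g, (τ g) ^ 2) := by
          have h5 : (0 : ℤ) ≤ nD D ^ 2 := sq_nonneg _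
          calc (m : ℤ) * (nD D ^ 2 * Fintype.card G) = nD D ^ 2 * (m * Fintype.card G) := by ring
            _ ≤ _ := mul_le_mul_of_nonneg_left hb2 h5
        push_cast
        linarith [hb1, h4]

end

end Pool.Agent.R937.VS
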