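import Pool.Agent.R937.VS.Alg
import Pool.Agent.R937.VS.Mean
import Pool.Agent.R937.VS.Short
import Pool.Agent.R937.CS.Gal

/-!
# Slopes and relations
-/

set_option autoImplicit false
set_option linter.unusedSectionVars false
set_option linter.unusedVariables false

namespace Pool.Agent.R937.VS

open NumberField Pool.Agent.H204R3.CM Pool.Agent.W547.KB Pool.Agent.W547.LD Pool.Agent.W495.TA Module
  Pool.Agent.W495.TB Pool.Agent.W495.TC Pool.Agent.TH117.F5 Pool.Agent.TH117.BL Pool.Agent.Y137.SF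
  Pool.Agent.R937.CS
open Pool.Agent.Y137.TV (tens tens_apply lam lam_ne_zero mono_F expandM)
open scoped TensorProduct

noncomputable section

section general

variable {Ω : Type} [Field Ω] {V W : Type} [AddCommGroup V] [Module Ω V]
  [AddCommGroup W] [Module Ω W]

theorem map_pow_apply (h : V →ₗ[Ω] W) (A : V →ₗ[Ω] V) (B : W →ₗ[Ω] W)
    (hAB : ∀ x, h (A x) = B (h x)) (n : ℕ) (x : V) : h ((A ^ n) x) = (B ^ n) (h x) := by
  induction n generalizing x with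
  | zero => rfl
  | succ n ih =>
    rw [pow_succ, pow_succ]
    change h ((A ^ n) (A x)) = (B ^ n) (B (h x))
    rw [ih, hAB]

theorem smul_pow_comm (φ : V →ₗ[Ω] V) (β : Ω) (t n : ℕ) :
    (β • φ ^ t) ^ n = β ^ n • φ ^ (t * n) := by
  rw [smul_pow, ← pow_mul]

/-- Passage to a power. -/
theorem gen_pow (A : V →ₗ[Ω] V) (q : Ω) (r n : ℕ) (w : V)
    (h : ((A - q • (1 : V →ₗ[Ω] V)) ^ r) w = 0) :
    ((A ^ n - q ^ n • (1 : V →ₗ[Ω] V)) ^ r) w = 0 := by
  have h4 : (Polynomial.X - Polynomial.C q) ^ r ∣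
      ((Polynomial.X ^ n - Polynomial.C q ^ n) ^ r : Polynomial Ω) :=
    pow_dvd_pow_of_dvd (sub_dvd_pow_sub_pow _ _ n) r
  obtain ⟨Q, hQ⟩ := h4
  have h5 := congrArg (Polynomial.aeval A) (hQ.trans (mul_comm _ _))
  simp only [map_mul, map_pow, map_sub, Polynomial.aeval_X, Polynomial.aeval_C] at h5
  rw [Algebra.algebraMap_eq_smul_one, smul_pow, one_pow] at h5
  rw [h5]
  change (Polynomial.aeval A) Q (((A - q • (1 : V →ₗ[Ω] V)) ^ r) w) = 0
  rw [h, map_zero]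

/-- Scaling. -/
theorem gen_smul (A : V →ₗ[Ω] V) (q ρ : Ω) (r : ℕ) (w : V)
    (h : ((A - q • (1 : V →ₗ[Ω] V)) ^ r) w = 0) :
    ((ρ • A - (ρ * q) • (1 : V →ₗ[Ω] V)) ^ r) w = 0 := by
  have h1 : ρ • A - (ρ * q) • (1 : V →ₗ[Ω] V) = ρ • (A - q • (1 : V →ₗ[Ω] V)) := by
    rw [smul_sub, smul_smul]
  rw [h1, smul_pow]
  change ρ ^ r • (((A - q • (1 : V →ₗ[Ω] V)) ^ r) w) = 0
  rw [h, smul_zero]

theorem gen_unsmul (A : V →ₗ[Ω] V) (q ρ : Ω) (hρ : ρ ≠ 0) (r : ℕ) (w : V)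
    (h : ((ρ • A - (ρ * q) • (1 : V →ₗ[Ω] V)) ^ r) w = 0) :
    ((A - q • (1 : V →ₗ[Ω] V)) ^ r) w = 0 := by
  have h1 := gen_smul (ρ • A) (ρ * q) ρ⁻¹ r w h
  rwa [smul_smul, ← mul_assoc, inv_mul_cancel₀ hρ, one_smul, one_mul] at h1

/-- An eigenvalue. -/
theorem exists_eigenvalue [IsAlgClosed Ω] [FiniteDimensional Ω V] (φ : V →ₗ[Ω] V) {β q : Ω}
    {t r : ℕ} {w : V} (hw : w ≠ 0) (h : ((β • φ ^ t - q • (1 : V →ₗ[Ω] V)) ^ r) w = 0) :
    ∃ α, End.HasEigenvalue φ α ∧ β * α ^ t = q := by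
  set A : V →ₗ[Ω] V := (β • φ ^ t - q • (1 : V →ₗ[Ω] V)) ^ r with hA
  set K : Submodule Ω V := LinearMap.ker A with hK
  have hcomm : ∀ x, φ (A x) = A (φ x) := by
    have h1 : Commute φ A := by
      rw [hA]
      refine Commute.pow_right ?_ r
      refine Commute.sub_right ?_ ((Commute.one_right φ).smul_right q)
      exact (Commute.self_pow φ t).smul_right β
    intro x
    exact congrArg (fun f : V →ₗ[Ω] V => f x) h1.eq
  have hφK : ∀ x ∈ K, φ x ∈ K := by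
    intro x hx
    rw [hK, LinearMap.mem_ker] at hx ⊢
    rw [← hcomm, hx, map_zero]
  haveI : Nontrivial K := ⟨⟨⟨w, h⟩, 0, fun h0 => hw (congrArg Subtype.val h0)⟩⟩
  obtain ⟨α, hα⟩ := End.exists_eigenvalue (φ.restrict hφK)
  obtain ⟨x, hx⟩ := hα.exists_hasEigenvector
  have hx0 : (x : V) ≠ 0 := fun h0 => hx.2 (Subtype.ext h0)
  have hφx : φ (x : V) = α • (x : V) := congrArg Subtype.val hx.apply_eq_smul
  refine ⟨α, End.hasEigenvalue_of_hasEigenvector (x := (x : V))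
    ⟨End.mem_eigenspace_iff.2 hφx, hx0⟩, ?_⟩
  have h2 : ∀ n, (φ ^ n) (x : V) = α ^ n • (x : V) := by
    intro n
    induction n with
    | zero => rw [pow_zero, pow_zero, one_smul]; rfl
    | succ n ih =>
      rw [pow_succ']
      change φ ((φ ^ n) (x : V)) = _
      rw [ih, map_smul, hφx, smul_smul, pow_succ]
  have h3 : ∀ n, ((β • φ ^ t - q • (1 : V →ₗ[Ω] V)) ^ n) (x : V) =
      (β * α ^ t - q) ^ n • (x : V) := by
    intro n
    induction n with
    | zero => rw [pow_zero, pow_zero, one_smul]; rfl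
    | succ n ih =>
      rw [pow_succ']
      change (β • φ ^ t - q • (1 : V →ₗ[Ω] V)) (((β • φ ^ t - q • (1 : V →ₗ[Ω] V)) ^ n) (x : V)) = _
      rw [ih, map_smul]
      change (β * α ^ t - q) ^ n • (β • (φ ^ t) (x : V) - q • (x : V)) = _
      rw [h2, smul_smul, ← sub_smul, smul_smul, ← pow_succ]
  have h4 : A (x : V) = 0 := x.2
  rw [hA, h3] at h4
  rcases smul_eq_zero.1 h4 with h5 | h5
  · exact sub_eq_zero.1 (eq_zero_of_pow_eq_zero h5)
  · exact absurd h5 hx0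

end general

section component

variable {p : ℕ} [Fact p.Prime] {ν : PadicAlgCl p ≃+* ℂ} {Ω : Type} [Field Ω] [CharZero Ω]
  {M : Type} [AddCommGroup M] [Module Ω M] {L : Type} [Field L] (jO : L →+* Ω)

/-- The coefficients of a class. -/
theorem component {Y : RedAV p ν} {φ : M →ₗ[Ω] M} {s t r : ℕ} {q : Ω}
    (e : Basis (Wt Y.X L) Ω (TM Ω Y)) [Finite (Wt Y.X L)]
    (h1 : ∀ w, co jO w (e w) = 1) (h0 : ∀ w w', w ≠ w' → co jO w (e w') = 0) {κ : Type} [Fintype κ]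
    {g : (TM Ω Y) [⋀^κ]→ₗ[Ω] M} (hg : ((frobOn Y φ s t κ - q • 1) ^ r) g = 0)
    (I : κ → Wt Y.X L) :
    ((((∏ k, lam jO (I k)) ^ s) • φ ^ t - q • (1 : M →ₗ[Ω] M)) ^ r) (g fun k => e (I k)) = 0 := by
  let h : ((TM Ω Y) [⋀^κ]→ₗ[Ω] M) →ₗ[Ω] M :=
    { toFun := fun g => g fun k => e (I k)
      map_add' := fun _ _ => rfl
      map_smul' := fun _ _ => rfl }
  have hmap : ∀ x, h ((frobOn Y φ s t κ - q • 1) x) =
      (((∏ k, lam jO (I k)) ^ s) • φ ^ t - q • (1 : M →ₗ[Ω] M)) (h x) := by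
    intro x
    change (φ ^ t) (x fun k => (F Ω Y ^ s) (e (I k))) - q • (x fun k => e (I k)) =
      ((∏ k, lam jO (I k)) ^ s) • (φ ^ t) (x fun k => e (I k)) - q • (x fun k => e (I k))
    have h2 : (fun k => (F Ω Y ^ s) (e (I k))) = fun k => (lam jO (I k)) ^ s • e (I k) :=
      funext fun k => F_pow_e jO e h1 h0 (I k) s
    rw [h2, AlternatingMap.map_smul_univ, map_smul, Finset.prod_pow]
  have h3 := map_pow_apply h _ _ hmap r g
  rw [hg, map_zero] at h3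
  exact h3.symm

/-- Monomials times vectors. -/
theorem isTate_tens {Y : RedAV p ν} {φ : M →ₗ[Ω] M} {s t r : ℕ} {q : Ω} {κ : Type} [Fintype κ]
    [DecidableEq κ] (J : κ → Wt Y.X L) (w : M)
    (hw : ((((∏ k, lam jO (J k)) ^ s) • φ ^ t - q • (1 : M →ₗ[Ω] M)) ^ r) w = 0) :
    ((frobOn Y φ s t κ - q • 1) ^ r) (tens (monoO jO J) w) = 0 := by
  let h : M →ₗ[Ω] ((TM Ω Y) [⋀^κ]→ₗ[Ω] M) :=
    { toFun := fun w => tens (monoO jO J) w
      map_add' := fun w w' => by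
        ext v
        change monoO jO J v • (w + w') = monoO jO J v • w + monoO jO J v • w'
        rw [smul_add]
      map_smul' := fun c w => by
        ext v
        change monoO jO J v • (c • w) = c • (monoO jO J v • w)
        rw [smul_comm] }
  have hmap : ∀ x, h ((((∏ k, lam jO (J k)) ^ s) • φ ^ t - q • (1 : M →ₗ[Ω] M)) x) =
      (frobOn Y φ s t κ - q • 1) (h x) := by
    intro x
    ext v
    change monoO jO J v • (((∏ k, lam jO (J k)) ^ s) • (φ ^ t) x - q • x) =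
      (φ ^ t) (monoO jO J (fun k => (F Ω Y ^ s) (v k)) • x) - q • (monoO jO J v • x)
    rw [mono_F, map_smul, smul_sub, smul_smul, smul_comm q, mul_comm]
  have h3 := map_pow_apply h _ _ hmap r w
  rw [hw, map_zero] at h3
  exact h3.symm

end component

section slopes

variable {p : ℕ} [Fact p.Prime] {ν : PadicAlgCl p ≃+* ℂ}
  {L : Type} [Field L] [NumberField L] [IsCMField L] [IsGalois ℚ L] (j : L →+* ℂ)

/-- The logarithm of the norm of the conjugates of an eigenvalue. -/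
theorem log_lam (Y : RedAV p ν) (hY : Big Y.X j) (w : Wt Y.X L) (σ : L ≃ₐ[ℚ] L) :
    Real.log ‖ν.symm (j (σ (w.2 (Y.π w.1))))‖ =
      Y.a * (1 / 2 + tf p ν j (St j w) σ / (2 * (nD (Dec p ν j) : ℝ))) *
        Real.log ‖(p : PadicAlgCl p)‖ := by
  have h8 : ‖ν.symm (j (σ (w.2 (Y.π w.1))))‖ ^ (2 * (Nat.card (Dec p ν j) : ℤ)) =
      ‖(p : PadicAlgCl p)‖ ^ ((Y.a : ℤ) * ((Nat.card (Dec p ν j) : ℤ) +
        tf p ν j (St j w) σ)) :=
    val_conj Pool.Agent.W366.TA.val (Y.X.factor w.1) (hY _) Y.a (Y.π w.1) (Y.frob w.1) w.2 σ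
  have h9 := congrArg Real.log h8
  rw [Real.log_zpow, Real.log_zpow] at h9
  have hD : (0 : ℝ) < Nat.card (Dec p ν j) := by exact_mod_cast Nat.card_pos
  have hn : ((nD (Dec p ν j) : ℤ) : ℝ) = (Nat.card (Dec p ν j) : ℝ) := by
    rw [nD_eq]
    push_cast
    rfl
  rw [hn]
  push_cast at h9
  field_simp
  linarith

/-- The relation between the slopes. -/
theorem sum_sq_tf {Ω : Type} [Field Ω] [CharZero Ω] (jO : L →+* Ω) {Y : RedAV p ν}
    (hY : Big Y.X j) {κ : Type} [Fintype κ] (I : κ → Wt Y.X L) {a b s t c : ℕ} (ha : 0 < a)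
    (ht : 0 < t) (hst : Y.a * s = a * t) {α : Ω}
    (hα : (∏ k, lam jO (I k)) ^ s * α ^ t = (p : Ω) ^ (a * t * c)) {μ : ℝ}
    (hslopes : HasSlopes p ν a b μ α) :
    b + Fintype.card κ = 2 * c ∧
    ∑ σ : L ≃ₐ[ℚ] L, ((∑ k, tf p ν j (St j (I k)) σ : ℤ) : ℝ) ^ 2 ≤
      μ * (Fintype.card (L ≃ₐ[ℚ] L) * (nD (Dec p ν j) : ℝ) ^ 2) := by
  classical
  obtain ⟨K, _, _, ι, x, rfl, hweil, hmean⟩ := hslopes
  have hp : p.Prime := Fact.out
  have hp0 : (p : L) ≠ 0 := Nat.cast_ne_zero.2 hp.ne_zero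
  let β : L := ∏ k, (I k).2 (Y.π (I k).1)
  have hlam : ∏ k, lam jO (I k) = jO β := by
    rw [map_prod]
    rfl
  have hπ0 : ∀ k, (I k).2 (Y.π (I k).1) ≠ 0 := fun k h => by
    apply lam_ne_zero jO (I k)
    unfold lam
    rw [h, map_zero]
  have hβ0 : β ≠ 0 := Finset.prod_ne_zero_iff.2 fun k _ => hπ0 k
  let y : L := (p : L) ^ (a * t * c) / β ^ s
  have hy : jO y = ι (x ^ t) := by
    rw [map_div₀, map_pow, map_pow, map_natCast, ← hlam, map_pow, ← hα,
      mul_div_cancel_left₀]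
    refine pow_ne_zero _ ?_
    rw [hlam]
    exact (map_ne_zero jO).2 hβ0
  have hmin : minpoly ℚ (x ^ t) = minpoly ℚ y := by
    have h1 := minpoly.algHom_eq (RingHom.equivRatAlgHom L Ω jO) jO.injective y
    have h2 := minpoly.algHom_eq (RingHom.equivRatAlgHom K Ω ι) ι.injective (x ^ t)
    rw [← h1, ← h2]
    exact congrArg (minpoly ℚ) hy.symm
  -- the weights
  have hpr : (1 : ℝ) < p := by exact_mod_cast hp.one_lt
  have hcard : b + Fintype.card κ = 2 * c := by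
    have h1 : j y ∈ Set.range fun ψ : K →+* ℂ => ψ (x ^ t) := by
      rw [Embeddings.range_eval_eq_rootSet_minpoly K ℂ (x ^ t), hmin,
        ← Embeddings.range_eval_eq_rootSet_minpoly L ℂ y]
      exact ⟨j, rfl⟩
    obtain ⟨ψ, hψ⟩ := h1
    have h2 : ‖ψ (x ^ t)‖ ^ 2 = (p : ℝ) ^ (a * b * t) := by
      rw [map_pow, norm_pow, ← pow_mul, mul_comm t 2, pow_mul, hweil, ← pow_mul]
    have h3 : ‖j β‖ ^ 2 = (p : ℝ) ^ (Y.a * Fintype.card κ) := by
      have hw : ∀ k, ‖j ((I k).2 (Y.π (I k).1))‖ ^ 2 = (p : ℝ) ^ Y.a := fun k =>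
        (Y.frob (I k).1).weil (j.comp (I k).2)
      rw [map_prod, norm_prod, ← Finset.prod_pow, Finset.prod_congr rfl fun k _ => hw k,
        Finset.prod_const, Finset.card_univ, ← pow_mul]
    have h4 : ‖j y‖ ^ 2 * (p : ℝ) ^ (Y.a * Fintype.card κ * s) = (p : ℝ) ^ (2 * (a * t * c)) := by
      have h5 : y * β ^ s = (p : L) ^ (a * t * c) := div_mul_cancel₀ _ (pow_ne_zero _ hβ0)
      have h6 := congrArg (fun z => ‖j z‖ ^ 2) h5
      simp only [map_mul, map_pow, map_natCast, norm_mul, norm_pow, Complex.norm_natCast] at h6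
      rw [mul_pow, ← pow_mul, mul_comm s 2, pow_mul, h3, ← pow_mul, ← pow_mul] at h6
      rw [h6, mul_comm (a * t * c) 2]
    have h5 : ψ (x ^ t) = j y := hψ
    rw [← h5, h2, ← pow_add] at h4
    have h6 := pow_right_injective₀ (by positivity : (0 : ℝ) < p) hpr.ne' h4
    have h7 : Y.a * Fintype.card κ * s = a * t * Fintype.card κ := by
      rw [mul_right_comm, hst]
    rw [h7] at h6
    have h8 : a * t * (b + Fintype.card κ) = a * t * (2 * c) := by
      calc a * t * (b + Fintype.card κ) = a * b * t + a * t * Fintype.card κ := by ring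
        _ = 2 * (a * t * c) := h6
        _ = a * t * (2 * c) := by ring
    exact Nat.eq_of_mul_eq_mul_left (Nat.mul_pos ha ht) h8
  refine ⟨hcard, ?_⟩
  set lp : ℝ := Real.log ‖(p : PadicAlgCl p)‖ with hlp
  have hlp0 : lp ≠ 0 := (Real.log_neg norm_p_pos norm_p_lt).ne
  have ha0 : (a : ℝ) ≠ 0 := by exact_mod_cast ha.ne'
  have ht0 : (t : ℝ) ≠ 0 := by exact_mod_cast ht.ne'
  have hlq : Real.log ‖(p : PadicAlgCl p) ^ a‖ = a * lp := by
    rw [norm_pow, Real.log_pow]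
  let h : ℂ → ℝ := fun z => (2 * (Real.log ‖ν.symm z‖ / (t * (a * lp))) - b) ^ 2
  have hK : ∀ ψ : K →+* ℂ, h (ψ (x ^ t)) = (2 * slope p ν a (ψ x) - b) ^ 2 := by
    intro ψ
    change (2 * (Real.log ‖ν.symm (ψ (x ^ t))‖ / (t * (a * lp))) - b) ^ 2 = _
    unfold slope
    rw [hlq, map_pow, map_pow, norm_pow, Real.log_pow]
    congr 3
    field_simp
  have hnD : (0 : ℝ) < (nD (Dec p ν j) : ℝ) := by exact_mod_cast nD_pos (Dec p ν j)
  have hL : ∀ σ : L ≃ₐ[ℚ] L, h (j (σ y)) =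
      ((∑ k, tf p ν j (St j (I k)) σ : ℤ) : ℝ) ^ 2 / (nD (Dec p ν j) : ℝ) ^ 2 := by
    intro σ
    have h1 : Real.log ‖ν.symm (j (σ y))‖ = (a * t * c) * lp -
        s * ∑ k, Real.log ‖ν.symm (j (σ ((I k).2 (Y.π (I k).1))))‖ := by
      have h2 : ‖ν.symm (j (σ y))‖ = ‖(p : PadicAlgCl p)‖ ^ (a * t * c) /
          (∏ k, ‖ν.symm (j (σ ((I k).2 (Y.π (I k).1))))‖) ^ s := by
        change ‖ν.symm (j (σ ((p : L) ^ (a * t * c) / (∏ k, (I k).2 (Y.π (I k).1)) ^ s)))‖ = _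
        simp only [map_div₀, map_pow, map_natCast, map_prod, norm_div, norm_pow, norm_prod]
      have hne : ∀ k, ‖ν.symm (j (σ ((I k).2 (Y.π (I k).1))))‖ ≠ 0 := fun k => by
        rw [norm_ne_zero_iff]
        exact (map_ne_zero ν.symm).2 ((map_ne_zero j).2 ((map_ne_zero σ).2 (hπ0 k)))
      rw [h2, Real.log_div (pow_ne_zero _ norm_p_pos.ne')
        (pow_ne_zero _ (Finset.prod_ne_zero_iff.2 fun k _ => hne k)), Real.log_pow, Real.log_pow,
        Real.log_prod fun k _ => hne k]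
      push_cast
      ring
    have h2 : ∑ k, Real.log ‖ν.symm (j (σ ((I k).2 (Y.π (I k).1))))‖ =
        Y.a * (Fintype.card κ / 2 + ((∑ k, tf p ν j (St j (I k)) σ : ℤ) : ℝ) /
          (2 * (nD (Dec p ν j) : ℝ))) * lp := by
      rw [Finset.sum_congr rfl fun k _ => log_lam j Y hY (I k) σ, ← Finset.sum_mul,
        ← Finset.mul_sum, Finset.sum_add_distrib, Finset.sum_const, Finset.card_univ,
        ← Finset.sum_div]
      push_cast
      rw [nsmul_eq_mul]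
      ring
    have hst' : (Y.a : ℝ) * s = a * t := by exact_mod_cast hst
    have hc' : (b : ℝ) + Fintype.card κ = 2 * c := by exact_mod_cast hcard
    change (2 * (Real.log ‖ν.symm (j (σ y))‖ / (t * (a * lp))) - b) ^ 2 = _
    set T : ℝ := ((∑ k, tf p ν j (St j (I k)) σ : ℤ) : ℝ) with hT
    have h3 : 2 * (Real.log ‖ν.symm (j (σ y))‖ / (t * (a * lp))) - b =
        -(T / (nD (Dec p ν j) : ℝ)) := by
      have h4 : Real.log ‖ν.symm (j (σ y))‖ = (a * t) * lp *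
          (c - (Fintype.card κ / 2 + T / (2 * (nD (Dec p ν j) : ℝ)))) := by
        rw [h1, h2]
        have h5 : s * (Y.a * (Fintype.card κ / 2 + T / (2 * (nD (Dec p ν j) : ℝ))) * lp) =
            (Y.a * s) * lp * (Fintype.card κ / 2 + T / (2 * (nD (Dec p ν j) : ℝ))) := by ring
        rw [h5, hst']
        ring
      rw [h4]
      have h5 : (b : ℝ) = 2 * c - Fintype.card κ := by linarith
      rw [h5]
      field_simp
      ring
    rw [h3, neg_sq, div_pow]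
  have hmean' := mean_eq (x ^ t) y hmin h
  rw [sum_gal j y h, Finset.sum_congr rfl fun ψ _ => hK ψ, Finset.sum_congr rfl fun σ _ => hL σ,
    ← Finset.sum_div] at hmean'
  have hG : (finrank ℚ L : ℝ) = Fintype.card (L ≃ₐ[ℚ] L) := by
    rw [← IsGalois.card_aut_eq_finrank, Nat.card_eq_fintype_card]
  have hKpos : (0 : ℝ) < finrank ℚ K := by exact_mod_cast finrank_pos
  have hLpos : (0 : ℝ) < finrank ℚ L := by exact_mod_cast finrank_pos
  have h1 := mul_le_mul_of_nonneg_right hmean hLpos.le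
  rw [hmean'] at h1
  have h2 : (∑ σ : L ≃ₐ[ℚ] L, ((∑ k, tf p ν j (St j (I k)) σ : ℤ) : ℝ) ^ 2) /
      (nD (Dec p ν j) : ℝ) ^ 2 ≤ μ * finrank ℚ L := by
    have h3 : (∑ σ : L ≃ₐ[ℚ] L, ((∑ k, tf p ν j (St j (I k)) σ : ℤ) : ℝ) ^ 2) /
        (nD (Dec p ν j) : ℝ) ^ 2 * finrank ℚ K ≤ (μ * finrank ℚ L) * finrank ℚ K := by
      linarith
    exact le_of_mul_le_mul_right h3 hKpos
  rw [div_le_iff₀ (by positivity), hG] at h2
  linarith

end slopes

end

end Pool.Agent.R937.VS
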