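import Pool.Agent.R937.VS.Defs
import Pool.Agent.Y137.TV.Main
import Pool.Agent.Y137.SF.Geo

/-!
# Closure properties of the system of classes on products with an arbitrary variety
-/

set_option autoImplicit false
set_option linter.all false

namespace Pool.Agent.R937.VS

open NumberField Pool.Agent.H204R3.CM Pool.Agent.W547.KB Pool.Agent.W547.LD Pool.Agent.W495.TA Module
  Pool.Agent.W495.TB Pool.Agent.W495.TC Pool.Agent.Y137.SF
open Pool.Agent.Y137.TV (tens tens_apply lam)
open scoped TensorProduct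

noncomputable section

variable {p : ℕ} [Fact p.Prime] {ν : PadicAlgCl p ≃+* ℂ} {Ω : Type} [Field Ω] [CharZero Ω]
  {L : Type} [Field L] [NumberField L] [IsCMField L] [IsGalois ℚ L]
  {M : Type} [AddCommGroup M] [Module Ω M] {a : ℕ} {φ : M →ₗ[Ω] M} {r : ℕ} {μ : ℝ}

theorem algV_sum {Y : RedAV p ν} {κ ι : Type} (s : Finset ι) (F : ι → (TM Ω Y) [⋀^κ]→ₗ[Ω] M)
    (hF : ∀ i ∈ s, AlgV a φ r μ Y κ (F i)) : AlgV a φ r μ Y κ (∑ i ∈ s, F i) := by
  classical
  induction s using Finset.induction_on with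
  | empty => rw [Finset.sum_empty]; exact AlgV.zero Y κ
  | insert a s ha ih =>
    rw [Finset.sum_insert ha]
    exact AlgV.add _ _ (hF a (Finset.mem_insert_self a s))
      (ih fun i hi => hF i (Finset.mem_insert_of_mem hi))

/-- All monomials with the given functions, times the vector `w`. -/
def AlgMV (a : ℕ) (φ : M →ₗ[Ω] M) (r : ℕ) (μ : ℝ) (p : ℕ) [Fact p.Prime] (ν : PadicAlgCl p ≃+* ℂ)
    (j : L →+* ℂ) (jO : L →+* Ω) (κ : Type) (t : κ → (L ≃ₐ[ℚ] L) → ℤ) (w : M) : Prop :=
  ∀ [Fintype κ] [DecidableEq κ] (Y : RedAV p ν), Big Y.X j → ∀ I : κ → Wt Y.X L,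
    (∀ k, tf p ν j (St j (I k)) = t k) → AlgV a φ r μ Y κ (tens (monoO jO I) w)

section

open Pool.Agent.W333.TA

/-- Cup products. -/
theorem cupV (j : L →+* ℂ) (jO : L →+* Ω) {κ κ' : Type} [Finite κ] [Finite κ']
    {t : κ → (L ≃ₐ[ℚ] L) → ℤ} {t' : κ' → (L ≃ₐ[ℚ] L) → ℤ} {w : M}
    (h : AlgMS ∅ p ν j jO κ t) (h' : AlgMV a φ r μ p ν j jO κ' t' w) :
    AlgMV a φ r μ p ν j jO (κ ⊕ κ') (Sum.elim t t') w := by
  classical
  intro iF iD Y hY I hI
  haveI := Fintype.ofFinite κ
  haveI := Fintype.ofFinite κ'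
  obtain rfl : iF = instFintypeSum κ κ' := Subsingleton.elim _ _
  obtain rfl : iD = instDecidableEqSum := Subsingleton.elim _ _
  have h1 := h Y hY (fun k => I (Sum.inl k)) (fun k => hI (Sum.inl k))
  have h2 := h' Y hY (fun k => I (Sum.inr k)) (fun k => hI (Sum.inr k))
  set c : Ω := (Fintype.card (Equiv.Perm κ) : Ω) * (Fintype.card (Equiv.Perm κ') : Ω) with hc
  have hc0 : c ≠ 0 := by
    rw [hc]
    exact mul_ne_zero (Nat.cast_ne_zero.mpr Fintype.card_ne_zero)
      (Nat.cast_ne_zero.mpr Fintype.card_ne_zero)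
  have hI2 : Sum.elim (fun k => I (Sum.inl k)) (fun k => I (Sum.inr k)) = I := by
    funext k
    rcases k with k | k <;> rfl
  have h3 := AlgV.cup _ _ h1 h2 (c • tens (monoO jO I) w) (by
    intro v
    have h4 := monoO_cup jO (fun k => I (Sum.inl k)) (fun k => I (Sum.inr k)) v
    rw [hI2] at h4
    rw [AlternatingMap.smul_apply, tens_apply, smul_smul, ← h4, Finset.sum_smul]
    refine Finset.sum_congr rfl fun σ _ => ?_
    rw [tens_apply, smul_smul, mul_assoc])
  have h4 := AlgV.smul c⁻¹ _ h3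
  rwa [smul_smul, inv_mul_cancel₀ hc0, one_smul] at h4

end

section

open Pool.Agent.W82.TA

/-- Pull-backs. -/
theorem pullV (j : L →+* ℂ) (jO : L →+* Ω) (Z : RedAV p ν) (hZ : Big Z.X j) (κ : Type)
    [iF : Fintype κ] [iD : DecidableEq κ] (J : κ → Wt Z.X L) (hJ : Function.Injective J) (w : M)
    (hAlg : AlgV a φ r μ Z κ (tens (monoO jO J) w)) :
    AlgMV a φ r μ p ν j jO κ (fun k => tf p ν j (St j (J k))) w := by
  have hval := Pool.Agent.W366.TA.val
  have hru := Pool.Agent.W64.TA.ru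
  have hbas := Pool.Agent.W67.TA.basis
  intro iF' iD' Y hY I hI
  have e1 : iF = iF' := Subsingleton.elim _ _
  have e2 : iD = iD' := Subsingleton.elim _ _
  subst e1
  subst e2
  obtain ⟨eZ, he1, he2⟩ := hbas p ν Ω L j jO Z hZ
  have hc := co_eq_coord jO eZ he1 he2
  have hext : ∀ v v' : TM Ω Z, (∀ w, co jO w v = co jO w v') → v = v' := by
    intro v v' h
    refine eZ.ext_elem fun w => ?_
    have h3 := h w
    rw [hc w] at h3
    exact h3
  choose n hn0 hn using fun k => match_weights hval hru j Y Z hY hZ (I k) (J k) (hI k)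
  let h : TM Ω Y →ₗ[Ω] TM Ω Z := ∑ k, (co jO (I k)).smulRight (eZ (J k))
  have hh : ∀ w v, co jO w (h v) = ∑ k, co jO (I k) v * co jO w (eZ (J k)) := by
    intro w v
    change co jO w ((∑ k, (co jO (I k)).smulRight (eZ (J k))) v) = _
    rw [LinearMap.sum_apply, map_sum]
    refine Finset.sum_congr rfl fun k _ => ?_
    rw [LinearMap.smulRight_apply, map_smul, smul_eq_mul]
  have hhJ : ∀ k v, co jO (J k) (h v) = co jO (I k) v := by
    intro k v
    rw [hh, Finset.sum_eq_single k, he1, mul_one]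
    · intro k' _ hk
      rw [he2 _ _ (fun h => hk (hJ h).symm), mul_zero]
    · intro h
      exact absurd (Finset.mem_univ _) h
  have hF : IsFrobHom Ω Y Z h := by
    refine ⟨Z.a * ∏ k, n k, Y.a * ∏ k, n k, Nat.mul_pos Z.pos (Finset.prod_pos fun k _ => hn0 k),
      Nat.mul_pos Y.pos (Finset.prod_pos fun k _ => hn0 k), by ring, fun v => ?_⟩
    refine hext _ _ fun w => ?_
    rw [hh, co_F_pow, hh, Finset.mul_sum]
    refine Finset.sum_congr rfl fun k _ => ?_
    by_cases hw : w = J k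
    · subst hw
      have key : (I k).2 (Y.π (I k).1) ^ (Z.a * ∏ k, n k) =
          (J k).2 (Z.π (J k).1) ^ (Y.a * ∏ k, n k) := by
        obtain ⟨m, hm⟩ := Finset.dvd_prod_of_mem n (Finset.mem_univ k)
        rw [hm, ← mul_assoc, ← mul_assoc, pow_mul, pow_mul _ (Y.a * n k), hn k]
      rw [co_F_pow, he1, mul_one, mul_one, ← map_pow jO, ← map_pow jO, key]
    · rw [he2 _ _ hw, mul_zero, mul_zero, mul_zero]
  have hmono : (tens (monoO jO J) w).compLinearMap h = tens (monoO jO I) w := by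
    ext v
    rw [AlternatingMap.compLinearMap_apply, tens_apply, tens_apply]
    congr 1
    unfold monoO
    rw [MultilinearMap.alternatization_apply, MultilinearMap.alternatization_apply]
    refine Finset.sum_congr rfl fun σ _ => ?_
    congr 1
    change ∏ k, co jO (J k) (h (v (σ k))) = ∏ k, co jO (I k) (v (σ k))
    exact Finset.prod_congr rfl fun k _ => hhJ k _
  rw [← hmono]
  exact AlgV.pull h hF _ hAlg

end

section

open Pool.Agent.W976.TA (prodR hQ hQ' frobHom frobHom' bij inlW inrW monoO_det co_ll co_rl co_lr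
  co_rr)

/-- Push-forwards. -/
theorem pushV (j : L →+* ℂ) (jO : L →+* Ω) (E : RedAV p ν) (hE : Big E.X j) (κ : Type) [Finite κ]
    (t : κ → (L ≃ₐ[ℚ] L) → ℤ) (w0 : M)
    (hA : AlgMV a φ r μ p ν j jO (κ ⊕ Wt E.X L) (Sum.elim t fun w => tf p ν j (St j w)) w0) :
    AlgMV a φ r μ p ν j jO κ t w0 := by
  intro _ _ Y hY I hI
  classical
  have hfin : Finite (Wt E.X L) := finite_wt j hE
  let _ : Fintype (Wt E.X L) := Fintype.ofFinite _
  obtain ⟨e, he1, he2⟩ := Pool.Agent.W67.TA.basis p ν Ω L j jO E hE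
  have hbig : Big (prodR Y E).X j := by
    rintro (i | i) ψ
    · exact hY i ψ
    · exact hE i ψ
  have hf := hA (prodR Y E) hbig (Sum.elim (fun k => inlW (I k)) (fun w => inrW w)) (by
    rintro (k | w)
    · exact hI k
    · rfl)
  refine AlgV.push ((hQ Y E).baseChange Ω) ((hQ' Y E).baseChange Ω) (frobHom Y E Ω)
    (frobHom' Y E Ω) (bij Y E Ω) e _ hf _ fun v => ?_
  rw [tens_apply, tens_apply]
  congr 1
  rw [monoO_det, monoO_det]
  have h1 : (Matrix.of fun k l => co jO
      (Sum.elim (fun k => inlW (I k)) (fun w => inrW w) l)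
      (Sum.elim (fun k => (hQ Y E).baseChange Ω (v k))
        (fun k => (hQ' Y E).baseChange Ω (e k)) k)) =
      Matrix.fromBlocks (Matrix.of fun k l => co jO (I l) (v k)) 0 0 1 := by
    ext k l
    rcases k with k | k <;> rcases l with l | l
    · exact co_ll jO (I l) (v k)
    · exact co_rl jO l (v k)
    · exact co_lr jO (I l) _
    · simp only [Matrix.of_apply, Sum.elim_inr, Matrix.fromBlocks_apply₂₂]
      rw [co_rr]
      by_cases hkl : k = l
      · subst hkl
        rw [he1, Matrix.one_apply_eq]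
      · rw [he2 _ _ (fun h => hkl h.symm), Matrix.one_apply_ne hkl]
  rw [h1, Matrix.det_fromBlocks_zero₂₁, Matrix.det_one, mul_one]

end

/-- Renaming of the variables. -/
theorem reindexV (j : L →+* ℂ) (jO : L →+* Ω) {κ κ' : Type} [Finite κ] (e : κ ≃ κ')
    {t : κ → (L ≃ₐ[ℚ] L) → ℤ} {t' : κ' → (L ≃ₐ[ℚ] L) → ℤ} {w : M}
    (ht : ∀ k, t' (e k) = t k) (h : AlgMV a φ r μ p ν j jO κ t w) :
    AlgMV a φ r μ p ν j jO κ' t' w := by
  classical
  intro _ _ Y hY I' hI'
  haveI := Fintype.ofFinite κ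
  have h1 := h Y hY (fun k => I' (e k)) (by intro k; rw [hI', ht])
  have h2 := AlgV.reindex e _ h1
  have h3 : (tens (monoO jO fun k => I' (e k)) w).domDomCongr e = tens (monoO jO I') w := by
    ext v
    rw [AlternatingMap.domDomCongr_apply, tens_apply, tens_apply]
    congr 1
    have h4 := Pool.Agent.W333.TA.monoO_reindex jO e I'
    rw [← h4]
    rfl
  rwa [h3] at h2

end

end Pool.Agent.R937.VS
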