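import Pool.Agent.R937.CS.Single

/-!
# Sums of averaged sign functions: short representations
-/

set_option autoImplicit false
set_option linter.unusedSectionVars false
set_option linter.unusedVariables false

namespace Pool.Agent.R937.VS

open Pool.Agent.W495.TA Pool.Agent.W495.TC Pool.Agent.TH117.BL Pool.Agent.Y137.SF
  Pool.Agent.R937.CS

noncomputable section

/-! ### Counting -/

theorem sum_lt (m a : ℕ) (h : a ≤ m) : ∑ q : Fin m, (if (q : ℕ) < a then (1 : ℤ) else 0) = a := by
  rw [Fin.sum_univ_eq_sum_range (fun q => if q < a then (1 : ℤ) else 0) m, ← Finset.sum_filter]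
  have h1 : (Finset.range m).filter (fun q => q < a) = Finset.range a := by
    ext q
    simp only [Finset.mem_filter, Finset.mem_range]
    omega
  rw [h1, Finset.sum_const, Finset.card_range, nsmul_eq_mul, mul_one]

theorem sum_levels (m : ℕ) (x : ℤ) (h : |x| ≤ m) :
    ∑ q : Fin m, (if ((q : ℕ) : ℤ) < x then (1 : ℤ) else if x < -((q : ℕ) : ℤ) then -1 else 0) =
      x := by
  rcases le_total 0 x with h0 | h0
  · obtain ⟨a, rfl⟩ := Int.eq_ofNat_of_zero_le h0
    rw [abs_of_nonneg h0] at h
    refine Eq.trans ?_ (sum_lt m a (by exact_mod_cast h))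
    refine Finset.sum_congr rfl fun q _ => ?_
    by_cases h1 : (q : ℕ) < a
    · rw [if_pos (by exact_mod_cast h1), if_pos h1]
    · rw [if_neg (by exact_mod_cast h1), if_neg h1, if_neg (by omega)]
  · obtain ⟨a, ha⟩ := Int.eq_ofNat_of_zero_le (neg_nonneg.2 h0)
    have hx : x = -(a : ℤ) := by omega
    subst hx
    rw [abs_neg, abs_of_nonneg (by positivity)] at h
    refine Eq.trans ?_ (congrArg Neg.neg (sum_lt m a (by exact_mod_cast h)))
    rw [← Finset.sum_neg_distrib]
    refine Finset.sum_congr rfl fun q _ => ?_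
    by_cases h1 : (q : ℕ) < a
    · rw [if_neg (by omega), if_pos (by omega), if_pos h1]
    · rw [if_neg (by omega), if_neg (by omega), if_neg h1, neg_zero]

theorem sq_eq_one_iff_of_side {x : ℤ} (h : x ^ 2 = 1) : x = 1 ∨ x = -1 := by
  have h1 : (x - 1) * (x + 1) = 0 := by linarith [h]
  rcases mul_eq_zero.1 h1 with h2 | h2
  · left; omega
  · right; omega

theorem sum_thresholds (m : ℕ) (x : ℤ) (h : |x| ≤ m) (hpar : (2 : ℤ) ∣ m - x) :
    ∑ q : Fin m, (if (m : ℤ) - 1 - 2 * ((q : ℕ) : ℤ) < x then (1 : ℤ) else -1) = x := by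
  obtain ⟨b, hb⟩ := hpar
  have hx := abs_le.1 h
  have hb0 : 0 ≤ b := by omega
  obtain ⟨a, rfl⟩ := Int.eq_ofNat_of_zero_le hb0
  have ham : a ≤ m := by omega
  have h1 : ∀ q : Fin m, (if (m : ℤ) - 1 - 2 * ((q : ℕ) : ℤ) < x then (1 : ℤ) else -1) =
      1 - 2 * (if (q : ℕ) < a then (1 : ℤ) else 0) := by
    intro q
    by_cases h2 : (q : ℕ) < a
    · rw [if_neg (by omega), if_pos h2]
      norm_num
    · rw [if_pos (by omega), if_neg h2]
      norm_num
  rw [Finset.sum_congr rfl fun q _ => h1 q, Finset.sum_sub_distrib, ← Finset.mul_sum, sum_lt m a ham,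
    Finset.sum_const, Finset.card_univ, Fintype.card_fin, nsmul_eq_mul, mul_one]
  linarith

section cls

variable {G : Type} [Group G] [Fintype G] (D : Subgroup G) (c : G)
  (hcomm : ∀ g, c * g = g * c) (hc2 : c * c = 1)

/-- A function which is constant on the cosets of `D`. -/
theorem av_const (f : G → ℤ) (g : G) (h : ∀ d ∈ D, f (d * g) = f g) : av D f g = nD D * f g := by
  classical
  unfold av nD
  rw [Finset.sum_mul]
  refine Finset.sum_congr rfl fun d _ => ?_
  by_cases hd : d ∈ D
  · rw [if_pos hd, if_pos hd, h d hd, one_mul]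
  · rw [if_neg hd, if_neg hd, zero_mul]

include hcomm hc2

/-- Realisation of a function with the values `0`, `1` and `-1`. -/
theorem realise (f0 : G → ℤ) (hf0 : IsSign c f0) (hidx0 : (rst f0).index ≤ 4)
    (u : G → ℤ) (hu : ∀ g, u g = 0 ∨ u g = 1 ∨ u g = -1) (hodd : ∀ g, u (c * g) = -u g)
    (hl : ∀ g, ∀ d ∈ D, u (d * g) = u g) (hr : ∀ g, ∀ n ∈ (rst f0).normalCore, u (g * n) = u g)
    (T : G → ℤ) (hT : (∃ g, u g = 0) → IsSign c T ∧
      (∀ g, ∀ n ∈ (rst f0).normalCore, T (g * n) = T g) ∧ ∀ g, av D T g = 0) :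
    ∃ f' : G → ℤ, IsSign c f' ∧ (rst f').index ≤ 4 ∧ ∀ g, av D f' g = nD D * u g := by
  classical
  let f' : G → ℤ := fun g => if u g = 0 then T g else u g
  have hf's : IsSign c f' := by
    refine ⟨fun g => ?_, fun g => ?_⟩
    · change (if u g = 0 then T g else u g) = 1 ∨ (if u g = 0 then T g else u g) = -1
      by_cases h : u g = 0
      · rw [if_pos h]
        exact (hT ⟨g, h⟩).1.sign g
      · rw [if_neg h]
        rcases hu g with h1 | h1 | h1
        · exact absurd h1 h
        · exact Or.inl h1
        · exact Or.inr h1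
    · change (if u (c * g) = 0 then T (c * g) else u (c * g)) =
        -(if u g = 0 then T g else u g)
      rw [hodd]
      by_cases h : u g = 0
      · rw [if_pos h, if_pos (by rw [h, neg_zero])]
        exact (hT ⟨g, h⟩).1.odd g
      · rw [if_neg h, if_neg (neg_ne_zero.2 h)]
  refine ⟨f', hf's, ?_, ?_⟩
  · refine index_le_of_core c hcomm hc2 f0 hf0 hidx0 f' hf's ?_
    intro n hn g
    change (if u (g * n) = 0 then T (g * n) else u (g * n)) = (if u g = 0 then T g else u g)
    rw [hr g n hn]
    by_cases h : u g = 0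
    · rw [if_pos h, if_pos h, (hT ⟨g, h⟩).2.1 g n hn]
    · rw [if_neg h, if_neg h]
  · intro g
    by_cases h : u g = 0
    · rw [h, mul_zero, ← (hT ⟨g, h⟩).2.2 g]
      unfold av
      refine Finset.sum_congr rfl fun d _ => ?_
      by_cases hd : d ∈ D
      · rw [if_pos hd, if_pos hd]
        change (if u (d * g) = 0 then T (d * g) else u (d * g)) = _
        rw [if_pos (by rw [hl g d hd]; exact h)]
      · rw [if_neg hd, if_neg hd]
    · have h1 : f' g = u g := if_neg h
      rw [← h1]
      refine av_const D f' g fun d hd => ?_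
      change (if u (d * g) = 0 then T (d * g) else u (d * g)) = (if u g = 0 then T g else u g)
      rw [hl g d hd, if_neg h, if_neg h]

omit hcomm hc2 in
/-- The maximum of the absolute values is taken on a coset of a subgroup. -/
theorem sum_sq_ge (V : Subgroup G) (τ : G → ℤ)
    (hV : ∀ w ∈ V, ∀ g, τ (w * g) = τ g ∨ τ (w * g) = -τ g) (g0 : G) (i : ℕ) (hi : V.index ≤ i) :
    (Fintype.card G : ℤ) * (τ g0) ^ 2 ≤ i * ∑ g, (τ g) ^ 2 := by
  classical
  have h1 : (Nat.card V : ℤ) * (τ g0) ^ 2 ≤ ∑ g, (τ g) ^ 2 := by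
    have h2 : ∑ g : G, (if g ∈ V then (τ g0) ^ 2 else 0) ≤ ∑ g, (τ (g * g0)) ^ 2 := by
      refine Finset.sum_le_sum fun g _ => ?_
      by_cases hg : g ∈ V
      · rw [if_pos hg]
        rcases hV g hg g0 with h | h <;> rw [h] <;> simp
      · rw [if_neg hg]
        positivity
    rw [Equiv.sum_comp (Equiv.mulRight g0) (fun g => (τ g) ^ 2) |>.symm]
    refine le_trans (le_of_eq ?_) h2
    rw [← Finset.sum_filter, Finset.sum_const, nsmul_eq_mul, Nat.card_eq_fintype_card,
      Fintype.card_subtype]
  have h3 : (Fintype.card G : ℤ) = Nat.card V * V.index := by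
    rw [← Nat.card_eq_fintype_card, ← Subgroup.card_mul_index V]
    push_cast
    rfl
  have h4 : (0 : ℤ) ≤ (Nat.card V : ℤ) * (τ g0) ^ 2 := by positivity
  have h5 : (V.index : ℤ) ≤ i := by exact_mod_cast hi
  calc (Fintype.card G : ℤ) * (τ g0) ^ 2 = V.index * (Nat.card V * (τ g0) ^ 2) := by
        rw [h3]
        ring
    _ ≤ i * (Nat.card V * (τ g0) ^ 2) := mul_le_mul_of_nonneg_right h5 h4
    _ ≤ i * ∑ g, (τ g) ^ 2 := mul_le_mul_of_nonneg_left h1 (by positivity)

/-- **The members of a class.** -/
theorem class_short (f0 : G → ℤ) (hf0 : IsSign c f0) (hidx0 : (rst f0).index ≤ 4)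
    (τ : G → ℤ) (hodd : ∀ g, τ (c * g) = -τ g) (hl : ∀ g, ∀ d ∈ D, τ (d * g) = τ g)
    (hr : ∀ g, ∀ n ∈ (rst f0).normalCore, τ (g * n) = τ g)
    (hcase : (∀ g, τ g = 0) ∨
      ((VV D c f0).index ≤ 2 ∧ ∃ T : G → ℤ, IsSign c T ∧
        (∀ g, ∀ n ∈ (rst f0).normalCore, T (g * n) = T g) ∧ ∀ g, av D T g = 0) ∨
      ((VV D c f0).index ≤ 4 ∧ (∀ g g', (2 : ℤ) ∣ τ g - τ g') ∧ ∃ e : G → ℤ, IsSign c e ∧
        (∀ g, ∀ d ∈ D, e (d * g) = e g) ∧ ∀ g, ∀ n ∈ (rst f0).normalCore, e (g * n) = e g)) :
    ∃ (m : ℕ) (f' : Fin m → G → ℤ), (∀ q, IsSign c (f' q)) ∧ (∀ q, (rst (f' q)).index ≤ 4) ∧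
      (∀ g, ∑ q, av D (f' q) g = nD D * τ g) ∧
      (m : ℤ) * Fintype.card G ≤ 2 * ∑ g, (τ g) ^ 2 := by
  classical
  rcases hcase with h0 | hcase
  · refine ⟨0, fun q => q.elim0, fun q => q.elim0, fun q => q.elim0, fun g => ?_, ?_⟩
    · rw [h0, mul_zero]
      rfl
    · rw [Nat.cast_zero, zero_mul]
      positivity
  · obtain ⟨g0, -, hg0⟩ := Finset.exists_max_image Finset.univ (fun g => (τ g).natAbs)
      ⟨1, Finset.mem_univ _⟩
    set m : ℕ := (τ g0).natAbs with hm
    have hmax : ∀ g, |τ g| ≤ m := by
      intro g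
      have h1 := hg0 g (Finset.mem_univ _)
      rw [← Int.natCast_natAbs]
      exact_mod_cast h1
    have hm2 : (τ g0) ^ 2 = (m : ℤ) ^ 2 := by
      rw [hm, Int.natCast_natAbs, sq_abs]
    have hV : ∀ w ∈ VV D c f0, ∀ g, τ (w * g) = τ g ∨ τ (w * g) = -τ g := by
      let U : Subgroup G :=
        { carrier := {w | ∀ g, τ (w * g) = τ g ∨ τ (w * g) = -τ g}
          one_mem' := fun g => Or.inl (by rw [one_mul])
          mul_mem' := by
            intro a b ha hb g
            rcases ha (b * g) with h1 | h1 <;> rcases hb g with h2 | h2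
            · left; rw [mul_assoc, h1, h2]
            · right; rw [mul_assoc, h1, h2]
            · right; rw [mul_assoc, h1, h2]
            · left; rw [mul_assoc, h1, h2, neg_neg]
          inv_mem' := by
            intro a ha g
            have h1 := ha (a⁻¹ * g)
            rw [mul_inv_cancel_left] at h1
            rcases h1 with h1 | h1
            · left; exact h1.symm
            · right; rw [h1, neg_neg] }
      have hU : VV D c f0 ≤ U := by
        refine sup_le (sup_le ?_ ?_) ?_
        · intro d hd g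
          exact Or.inl (hl g d hd)
        · rw [Subgroup.zpowers_le]
          intro g
          exact Or.inr (hodd g)
        · intro n hn g
          left
          have h1 : n * g = g * (g⁻¹ * n * g) := by group
          have h2 : g⁻¹ * n * g ∈ (rst f0).normalCore := by
            have := (Subgroup.normalCore_normal (rst f0)).conj_mem n hn g⁻¹
            rwa [inv_inv] at this
          rw [h1, hr g _ h2]
      exact fun w hw => hU hw
    have hcardpos : (0 : ℤ) < Fintype.card G := by exact_mod_cast Fintype.card_pos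
    rcases hcase with ⟨hi, T, hT, hTr, hT0⟩ | ⟨hi, hpar, e, he, hel, her⟩
    · have key : ∀ q : Fin m, ∃ f' : G → ℤ, IsSign c f' ∧ (rst f').index ≤ 4 ∧ ∀ g, av D f' g =
          nD D * (if ((q : ℕ) : ℤ) < τ g then (1 : ℤ) else if τ g < -((q : ℕ) : ℤ) then -1
            else 0) := by
        intro q
        refine realise D c hcomm hc2 f0 hf0 hidx0 _ (fun g => ?_) (fun g => ?_) (fun g d hd => ?_)
          (fun g n hn => ?_) T fun _ => ⟨hT, hTr, hT0⟩
        · by_cases h1 : ((q : ℕ) : ℤ) < τ g
          · rw [if_pos h1]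
            exact Or.inr (Or.inl rfl)
          · rw [if_neg h1]
            by_cases h2 : τ g < -((q : ℕ) : ℤ)
            · rw [if_pos h2]
              exact Or.inr (Or.inr rfl)
            · rw [if_neg h2]
              exact Or.inl rfl
        · rw [hodd]
          by_cases h1 : ((q : ℕ) : ℤ) < τ g
          · rw [if_pos h1, if_neg (by omega), if_pos (by omega)]
          · rw [if_neg h1]
            by_cases h2 : τ g < -((q : ℕ) : ℤ)
            · rw [if_pos h2, if_pos (by omega), neg_neg]
            · rw [if_neg h2, if_neg (by omega), if_neg (by omega), neg_zero]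
        · rw [hl g d hd]
        · rw [hr g n hn]
      choose f' h1 h2 h3 using key
      refine ⟨m, f', h1, h2, fun g => ?_, ?_⟩
      · rw [Finset.sum_congr rfl fun q _ => h3 q g, ← Finset.mul_sum, sum_levels m _ (hmax g)]
      · have h4 := sum_sq_ge (VV D c f0) τ hV g0 2 hi
        rw [hm2] at h4
        have h5 : (m : ℤ) ≤ (m : ℤ) ^ 2 := by
          have : m ≤ m ^ 2 := Nat.le_self_pow (by norm_num) m
          exact_mod_cast this
        push_cast at h4
        nlinarith
    · let ρ : G → ℤ := fun g => e g * τ g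
      have hρ : ∀ g, |ρ g| ≤ m := by
        intro g
        change |e g * τ g| ≤ m
        rw [abs_mul]
        rcases he.sign g with h | h <;> rw [h] <;> simpa using hmax g
      have hρpar : ∀ g, (2 : ℤ) ∣ m - ρ g := by
        intro g
        have h1 := hpar g0 g
        change (2 : ℤ) ∣ m - e g * τ g
        have h2 : (m : ℤ) = τ g0 ∨ (m : ℤ) = -τ g0 := by
          rcases abs_cases (τ g0) with h | h
          · left; rw [hm, Int.natCast_natAbs]; exact h.1
          · right; rw [hm, Int.natCast_natAbs]; exact h.1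
        rcases he.sign g with h | h <;> rw [h] <;> rcases h2 with h3 | h3 <;> rw [h3] <;> omega
      have hesq : ∀ g, e g * e g = 1 := by
        intro g
        rcases he.sign g with h | h <;> rw [h] <;> norm_num
      have key : ∀ q : Fin m, ∃ f' : G → ℤ, IsSign c f' ∧ (rst f').index ≤ 4 ∧ ∀ g, av D f' g =
          nD D * (e g * (if (m : ℤ) - 1 - 2 * ((q : ℕ) : ℤ) < ρ g then (1 : ℤ) else -1)) := by
        intro q
        have hρc : ∀ g, ρ (c * g) = ρ g := by
          intro g
          change e (c * g) * τ (c * g) = e g * τ g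
          have h1 : e (c * g) = -e g := he.odd g
          rw [hodd, h1, neg_mul_neg]
        have hρl : ∀ g, ∀ d ∈ D, ρ (d * g) = ρ g := by
          intro g d hd
          change e (d * g) * τ (d * g) = e g * τ g
          rw [hel g d hd, hl g d hd]
        have hρr : ∀ g, ∀ n ∈ (rst f0).normalCore, ρ (g * n) = ρ g := by
          intro g n hn
          change e (g * n) * τ (g * n) = e g * τ g
          rw [her g n hn, hr g n hn]
        have hne : ∀ g, e g * (if (m : ℤ) - 1 - 2 * ((q : ℕ) : ℤ) < ρ g then (1 : ℤ) else -1) = 1 ∨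
            e g * (if (m : ℤ) - 1 - 2 * ((q : ℕ) : ℤ) < ρ g then (1 : ℤ) else -1) = -1 := by
          intro g
          rcases he.sign g with h | h <;> rw [h] <;> split_ifs <;> norm_num
        refine realise D c hcomm hc2 f0 hf0 hidx0 _ (fun g => Or.inr (hne g)) (fun g => ?_)
          (fun g d hd => ?_) (fun g n hn => ?_) (fun _ => 0) fun ⟨g, hg⟩ => ?_
        · have h1 : e (c * g) = -e g := he.odd g
          rw [hρc, h1, neg_mul]
        · rw [hρl g d hd, hel g d hd]
        · rw [hρr g n hn, her g n hn]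
        · exfalso
          rcases hne g with h | h <;> rw [h] at hg <;> norm_num at hg
      choose f' h1 h2 h3 using key
      refine ⟨m, f', h1, h2, fun g => ?_, ?_⟩
      · rw [Finset.sum_congr rfl fun q _ => h3 q g, ← Finset.mul_sum, ← Finset.mul_sum,
          sum_thresholds m _ (hρ g) (hρpar g)]
        change nD D * (e g * (e g * τ g)) = _
        rw [← mul_assoc (e g), hesq, one_mul]
      · have h4 := sum_sq_ge (VV D c f0) τ hV g0 4 hi
        rw [hm2] at h4
        push_cast at h4
        rcases Nat.lt_or_ge m 2 with h5 | h5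
        · have h6 : m = 0 ∨ m = 1 := by omega
          rcases h6 with h6 | h6
          · rw [h6, Nat.cast_zero, zero_mul]
            positivity
          · have h7 : ∀ g, (τ g) ^ 2 = 1 := by
              intro g
              have h8 := hmax g
              have h9 := hpar g0 g
              rw [h6] at h8 hm2
              have h10 := abs_le.1 h8
              push_cast at h10
              have h11 : τ g = 1 ∨ τ g = -1 := by
                have h12 : τ g0 = 1 ∨ τ g0 = -1 := by
                  have : (τ g0) ^ 2 = 1 := by rw [hm2]; norm_num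
                  exact sq_eq_one_iff_of_side this
                rcases h12 with h12 | h12 <;> omega
              rcases h11 with h11 | h11 <;> rw [h11] <;> norm_num
            rw [Finset.sum_congr rfl fun g _ => h7 g, Finset.sum_const, Finset.card_univ,
              nsmul_eq_mul, mul_one, h6]
            push_cast
            linarith
        · have h6 : 2 * (m : ℤ) ≤ (m : ℤ) ^ 2 := by
            have h7 : (2 : ℤ) ≤ m := by exact_mod_cast h5
            nlinarith
          nlinarith

end cls

end

end Pool.Agent.R937.VS
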